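import Pool.Agent.W901.NU.PPc
import Pool.Agent.H527R3.Toda.Arith

/-!
# `#P` functions: sums and products over ranges and lists, signed products, formulas
-/

set_option autoImplicit false

namespace Pool.Agent.Y597.Shp

open Pool.Agent.NPC Pool.Agent.NPC.Cnt

variable {α β : Type} [TEnc α] [TEnc β]

set_option linter.unusedSectionVars false

theorem bsum_blocks' (B : ℕ) (P : ℕ → List Bool → Bool) : ∀ n : ℕ,
    bsum (n * B) (fun w => ((List.range n).all (fun i => P i ((w.drop (i * B)).take B))).toNat) =
      ∏ i ∈ Finset.range n, bsum B (fun w => (P i w).toNat)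
  | 0 => by simp [bsum_zero]
  | n + 1 => by
    rw [Nat.add_mul, one_mul, bsum_append, Finset.prod_range_succ, ← bsum_blocks' B P n,
      ← bsum_mul_right]
    refine bsum_congr fun u hu => ?_
    rw [← bsum_mul_left]
    refine bsum_congr fun v hv => ?_
    rw [List.range_succ, List.all_append]
    have e1 : (List.range n).all (fun i => P i (((u ++ v).drop (i * B)).take B)) =
        (List.range n).all (fun i => P i ((u.drop (i * B)).take B)) := by
      rw [Bool.eq_iff_iff, List.all_eq_true, List.all_eq_true]
      refine forall₂_congr fun i hi => ?_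
      rw [List.mem_range] at hi
      have h1 : (i + 1) * B ≤ n * B := Nat.mul_le_mul_right B hi
      rw [Nat.add_mul, one_mul] at h1
      rw [List.drop_append_of_le_length (by omega), List.take_append_of_le_length (by
        rw [List.length_drop]; omega)]
    have e2 : [n].all (fun i => P i (((u ++ v).drop (i * B)).take B)) = P n v := by
      rw [List.all_cons, List.all_nil, Bool.and_true, List.drop_left' hu,
        List.take_of_length_le (by omega)]
    rw [e1, e2]
    cases P n v <;> simp

theorem prodR {F : α × ℕ → ℕ} {n : α → ℕ} (hF : CountP F) (hn : UPoly n) :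
    CountP (fun a => ∏ i ∈ Finset.range (n a), F (a, i)) := by
  obtain ⟨R, r, hR, hf⟩ := hF.normal
  have hB : UPoly (fun a => r.eval (sz a + 2 * sz (n a) + 1)) :=
    (UPoly.add (UPoly.add upoly_sz (UPoly.mul (UPoly.const 2)
      (upoly_sz.comp hn.toPoly))) (UPoly.const 1)).eval r
  refine ⟨fun x => (List.range (n x.1)).all (fun i => R ((x.1, i),
      (x.2.drop (i * r.eval (sz x.1 + 2 * sz (n x.1) + 1))).take
        (r.eval (sz x.1 + 2 * sz (n x.1) + 1)))),
    fun a => n a * r.eval (sz a + 2 * sz (n a) + 1), ?_, UPoly.mul hn hB, fun a => ?_⟩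
  · have hn' : Poly (fun x : α × List Bool => List.range (n x.1)) :=
      hn.range.comp (Poly.fst Poly.id)
    have h0 : Poly (fun x : (α × List Bool) × ℕ => r.eval (sz x.1.1 + 2 * sz (n x.1.1) + 1)) :=
      hB.toPoly.comp (f := fun x : (α × List Bool) × ℕ => x.1.1) (Poly.fst (Poly.fst Poly.id))
    refine Poly.all (p := fun (x : α × List Bool) i => R ((x.1, i),
      (x.2.drop (i * r.eval (sz x.1 + 2 * sz (n x.1) + 1))).take
        (r.eval (sz x.1 + 2 * sz (n x.1) + 1)))) hn' ?_
    exact hR.comp (Poly.pair (Poly.pair (Poly.fst (Poly.fst Poly.id)) (Poly.snd Poly.id))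
      (poly_tk (poly_dp (Poly.snd (Poly.fst Poly.id)) (Poly.mul (Poly.snd Poly.id) h0)) h0))
  · beta_reduce
    rw [bsum_blocks' _ (fun i w => R ((a, i), w))]
    refine Finset.prod_congr rfl fun i hi => ?_
    rw [Finset.mem_range] at hi
    refine hf (a, i) _ (eval_mono r ?_)
    have h1 := sz_nat_mono_le hi.le
    rw [sz_pair]
    omega

theorem polyToNat {b : α → Bool} (hb : Poly b) : Poly (fun a => (b a).toNat) :=
  (NPC.Poly.cond hb (NPC.Poly.const 1) (NPC.Poly.const 0)).congr fun a => by cases b a <;> rfl

attribute [fun_prop] polyToNat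

theorem sumR {F : α × ℕ → ℕ} {n : α → ℕ} (hF : CountP F) (hn : UPoly n) :
    CountP (fun a => ∑ i ∈ Finset.range (n a), F (a, i)) := by
  have e1 : Poly (fun z : α × List Bool => valB z.2) := Poly.valBits (Poly.snd Poly.id)
  have e2 : Poly (fun z : α × List Bool => n z.1) := hn.toPoly.comp (Poly.fst Poly.id)
  have h1 : CountP (fun z : α × List Bool =>
      (decide (valB z.2 < n z.1)).toNat * F (z.1, valB z.2)) :=
    CountP.mul (CountP.ofPoly (polyToNat (Poly.decide_lt e1 e2)))
      (hF.comp (Poly.pair (Poly.fst Poly.id) e1))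
  refine (CountP.bsum h1 hn).congr fun a => ?_
  beta_reduce
  rw [bsum_valB (n a) (fun x => (decide (x < n a)).toNat * F (a, x))]
  have h2 : Finset.range (n a) ⊆ Finset.range (2 ^ n a) := by
    rw [Finset.range_subset_range]
    exact (Nat.lt_two_pow_self).le
  rw [← Finset.sum_subset h2]
  · refine Finset.sum_congr rfl fun i hi => ?_
    rw [Finset.mem_range] at hi
    simp [hi]
  · intro i _ hi
    rw [Finset.mem_range] at hi
    simp [hi]

theorem cntCond {b : α → Bool} {f g : α → ℕ} (hb : Poly b) (hf : CountP f) (hg : CountP g) :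
    CountP (fun a => if b a = true then f a else g a) := by
  refine (CountP.add (CountP.mul (CountP.ofPoly (polyToNat hb)) hf)
    (CountP.mul (CountP.ofPoly (polyToNat (Poly.not hb))) hg)).congr fun a => ?_
  cases b a <;> simp

theorem cntOpt {o : α → Option β} {F : α × β → ℕ} (ho : Poly o) (hF : CountP F) :
    CountP (fun a => (o a).elim 1 (fun x => F (a, x))) := by
  obtain ⟨R, r, hR, hf⟩ := hF.normal
  have hB : UPoly (fun a => r.eval (sz a + sz (o a) + 1)) :=
    (UPoly.add (UPoly.add upoly_sz (upoly_sz.comp ho)) (UPoly.const 1)).eval r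
  refine ⟨fun x => (o x.1).elim (x.2.all (fun b => !b)) (fun y => R ((x.1, y), x.2)),
    fun a => r.eval (sz a + sz (o a) + 1), ?_, hB, fun a => ?_⟩
  · have h1 : Poly (fun x : α × List Bool => o x.1) := ho.comp (Poly.fst Poly.id)
    have h2 : Poly (fun p : (α × List Bool) × β => R ((p.1.1, p.2), p.1.2)) :=
      hR.comp (Poly.pair (Poly.pair (Poly.fst (Poly.fst Poly.id)) (Poly.snd Poly.id))
        (Poly.snd (Poly.fst Poly.id)))
    exact Poly.optElim (g := fun x : α × List Bool => x.2.all (fun b => !b))
      (h := fun (x : α × List Bool) (y : β) => R ((x.1, y), x.2)) h1 (by fun_prop) h2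
  · beta_reduce
    simp only
    cases h : o a with
    | none => exact (bsum_all_false _).symm
    | some x =>
      have h3 : sz x ≤ sz (Option.some x) := by
        show (toT x).size ≤ (T.node (toT x) T.nil).size
        simp
        omega
      refine hf (a, x) _ (eval_mono r ?_)
      rw [sz_pair]
      omega

theorem prod_opt (f : β → ℕ) : ∀ l : List β,
    ∏ i ∈ Finset.range l.length, (l[i]?).elim 1 f = (l.map f).prod
  | [] => by simp
  | x :: l => by
    rw [List.length_cons, Finset.prod_range_succ', List.map_cons, List.prod_cons,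
      ← prod_opt f l, mul_comm]
    simp

theorem prodL {l : α → List β} {F : α × β → ℕ} (hl : Poly l) (hF : CountP F) :
    CountP (fun a => ((l a).map (fun x => F (a, x))).prod) := by
  have h1 : Poly (fun z : α × ℕ => (l z.1)[z.2]?) :=
    Poly.getElem? (hl.comp (Poly.fst Poly.id)) (Poly.snd Poly.id)
  have h2 : CountP (fun y : (α × ℕ) × β => F (y.1.1, y.2)) :=
    hF.comp (Poly.pair (Poly.fst (Poly.fst Poly.id)) (Poly.snd Poly.id))
  exact (prodR (cntOpt h1 h2) (UPoly.length hl)).congr fun a =>
    prod_opt (fun x => F (a, x)) (l a)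

theorem sum_opt (f : β → ℕ) : ∀ l : List β,
    ∑ i ∈ Finset.range l.length, (if (l[i]?).isSome = true then (l[i]?).elim 1 f else 0) =
      (l.map f).sum
  | [] => by simp
  | x :: l => by
    rw [List.length_cons, Finset.sum_range_succ', List.map_cons, List.sum_cons,
      ← sum_opt f l, add_comm]
    simp

theorem sumL {l : α → List β} {F : α × β → ℕ} (hl : Poly l) (hF : CountP F) :
    CountP (fun a => ((l a).map (fun x => F (a, x))).sum) := by
  have h1 : Poly (fun z : α × ℕ => (l z.1)[z.2]?) :=
    Poly.getElem? (hl.comp (Poly.fst Poly.id)) (Poly.snd Poly.id)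
  have h2 : CountP (fun y : (α × ℕ) × β => F (y.1.1, y.2)) :=
    hF.comp (Poly.pair (Poly.fst (Poly.fst Poly.id)) (Poly.snd Poly.id))
  have h3 : Poly (fun z : α × ℕ => ((l z.1)[z.2]?).isSome) := Poly.isSome h1
  exact (sumR (cntCond h3 (cntOpt h1 h2) (CountP.const 0)) (UPoly.length hl)).congr fun a =>
    sum_opt (fun x => F (a, x)) (l a)

/-! ### Signed products -/

/-- the sum of the products with an even (`p = 0`) or odd (`p = 1`) number of factors `B` -/
def par (p : ℕ) (l : List β) (A B : β → ℕ) : ℕ :=
  bsum l.length (fun w => (decide ((w.filter (fun b => b)).length % 2 = p)).toNat *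
    ((l.zip w).map (fun q => if q.2 = true then B q.1 else A q.1)).prod)

theorem par_nil (p : ℕ) (A B : β → ℕ) :
    par p ([] : List β) A B = (decide (0 = p)).toNat := by
  show bsum 0 _ = _
  rw [bsum_zero]
  by_cases h : 0 = p
  · simp [h.symm]
  · have h' : ¬ (0 % 2 = p) := h
    simp only [List.filter_nil, List.length_nil, h', decide_false, Bool.toNat_false, zero_mul]

theorem par_cons (p : ℕ) (hp : p < 2) (x : β) (l : List β) (A B : β → ℕ) :
    par p (x :: l) A B = A x * par p l A B + B x * par (1 - p) l A B := by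
  unfold par
  rw [List.length_cons, bsum_succ, ← bsum_mul_left, ← bsum_mul_left]
  congr 1
  · refine bsum_congr fun w _ => ?_
    simp only [List.zip_cons_cons, List.map_cons, List.prod_cons, Bool.false_eq_true, if_false,
      List.filter_cons]
    ring
  · refine bsum_congr fun w _ => ?_
    simp only [List.zip_cons_cons, List.map_cons, List.prod_cons, if_true,
      List.filter_cons, List.length_cons]
    have e : decide (((w.filter (fun b => b)).length + 1) % 2 = p) =
        decide ((w.filter (fun b => b)).length % 2 = 1 - p) := by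
      rw [decide_eq_decide]
      omega
    rw [e]
    ring

theorem par_add (A B : β → ℕ) : ∀ l : List β,
    (par 0 l A B : ℤ) + par 1 l A B = (l.map (fun x => (A x : ℤ) + B x)).prod
  | [] => by simp [par_nil]
  | x :: l => by
    rw [par_cons 0 (by norm_num), par_cons 1 (by norm_num), List.map_cons, List.prod_cons,
      ← par_add A B l]
    push_cast
    ring

theorem par_sub (A B : β → ℕ) : ∀ l : List β,
    (par 0 l A B : ℤ) - par 1 l A B = (l.map (fun x => (A x : ℤ) - B x)).prod
  | [] => by simp [par_nil]
  | x :: l => by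
    rw [par_cons 0 (by norm_num), par_cons 1 (by norm_num), List.map_cons, List.prod_cons,
      ← par_sub A B l]
    push_cast
    ring

theorem two_par (A B : β → ℕ) (l : List β) :
    2 * (par 0 l A B : ℤ) = (l.map (fun x => (A x : ℤ) - B x)).prod +
      (l.map (fun x => (A x : ℤ) + B x)).prod := by
  rw [← par_add, ← par_sub]
  ring

theorem cntPar (p : ℕ) {l : α → List β} {A B : α × β → ℕ} (hl : Poly l) (hA : CountP A)
    (hB : CountP B) : CountP (fun a => par p (l a) (fun x => A (a, x)) (fun x => B (a, x))) := by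
  have h1 : Poly (fun z : α × List Bool => (l z.1).zip z.2) := by fun_prop
  have e1 : Poly (fun y : (α × List Bool) × (β × Bool) => (y.1.1, y.2.1)) := by fun_prop
  have h2 : CountP (fun y : (α × List Bool) × (β × Bool) =>
      if y.2.2 = true then B (y.1.1, y.2.1) else A (y.1.1, y.2.1)) :=
    cntCond (by fun_prop) (hB.comp e1) (hA.comp e1)
  have h3 := prodL h1 h2
  have h4 : CountP (fun z : α × List Bool =>
      (decide ((z.2.filter (fun b => b)).length % 2 = p)).toNat *
      (((l z.1).zip z.2).map (fun q => if q.2 = true then B (z.1, q.1) else A (z.1, q.1))).prod) :=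
    CountP.mul (CountP.ofPoly (by fun_prop)) h3
  exact CountP.bsum h4 (UPoly.length hl)

/-! ### Formulas -/

/-- A `#P` function of typed data is the number of models of a formula computed in polynomial
time. -/
theorem formOf [Cnt.TDec α] {f : α → ℕ} (hf : CountP f) :
    ∃ g : α → CNF ℕ, Poly g ∧ ∀ a, satCount (g a) = f a := by
  obtain ⟨V, p, hV, h⟩ := hf.sharpP
  obtain ⟨G, hG, hGf⟩ := parsimonious hV p
  have hG' : Poly G := PC.comp hG pc_raw
  refine ⟨fun a => G (bits a), hG'.comp poly_bits, fun a => ?_⟩
  rw [hGf, ← h, strFn_bits]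

end Pool.Agent.Y597.Shp
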