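import Mathlib

/-!
# Products that approximate the sign
-/

set_option autoImplicit false

namespace Pool.Agent.Y597.Shp

def WP (T : ℕ) (z : ℤ) : ℤ := ∏ t ∈ Finset.range T, (z + 2 ^ t) ^ 2

def WM (T : ℕ) (z : ℤ) : ℤ := ∏ t ∈ Finset.range T, (z - 2 ^ t) ^ 2

theorem WM_neg (T : ℕ) (z : ℤ) : WM T (-z) = WP T z := by
  unfold WM WP
  refine Finset.prod_congr rfl fun t _ => ?_
  ring

theorem WP_neg (T : ℕ) (z : ℤ) : WP T (-z) = WM T z := by
  rw [← WM_neg, neg_neg]

theorem WP_nonneg (T : ℕ) (z : ℤ) : 0 ≤ WP T z := Finset.prod_nonneg fun _ _ => sq_nonneg _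

theorem WM_nonneg (T : ℕ) (z : ℤ) : 0 ≤ WM T z := Finset.prod_nonneg fun _ _ => sq_nonneg _

theorem WP_pos (T : ℕ) {z : ℤ} (hz : 1 ≤ z) : 1 ≤ WP T z := by
  have h : 0 < WP T z := Finset.prod_pos fun t _ => by positivity
  omega

theorem WM_le (T : ℕ) {z : ℤ} (hz : 1 ≤ z) : WM T z ≤ WP T z := by
  refine Finset.prod_le_prod (fun _ _ => sq_nonneg _) fun t _ => ?_
  have h : (0 : ℤ) < 2 ^ t := by positivity
  nlinarith

theorem nine : ∀ (T : ℕ) {z : ℤ}, 1 ≤ z → z < 2 ^ T → 9 * WM T z ≤ WP T z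
  | 0, z, hz, hT => by simp at hT; omega
  | T + 1, z, hz, hT => by
    have e1 : WM (T + 1) z = WM T z * (z - 2 ^ T) ^ 2 := Finset.prod_range_succ _ _
    have e2 : WP (T + 1) z = WP T z * (z + 2 ^ T) ^ 2 := Finset.prod_range_succ _ _
    rw [e1, e2]
    have hp : (0 : ℤ) < 2 ^ T := by positivity
    by_cases h : z < 2 ^ T
    · have ih := nine T hz h
      have h1 : (z - 2 ^ T) ^ 2 ≤ (z + 2 ^ T) ^ 2 := by nlinarith
      calc 9 * (WM T z * (z - 2 ^ T) ^ 2) = (9 * WM T z) * (z - 2 ^ T) ^ 2 := by ring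
        _ ≤ WP T z * (z + 2 ^ T) ^ 2 :=
          mul_le_mul ih h1 (sq_nonneg _) (WP_nonneg _ _)
    · push Not at h
      have h1 : 9 * (z - 2 ^ T) ^ 2 ≤ (z + 2 ^ T) ^ 2 := by
        rw [pow_succ] at hT
        have h2 : 0 ≤ z - 2 ^ T := by omega
        have h3 : 3 * (z - 2 ^ T) ≤ z + 2 ^ T := by omega
        nlinarith
      calc 9 * (WM T z * (z - 2 ^ T) ^ 2) = WM T z * (9 * (z - 2 ^ T) ^ 2) := by ring
        _ ≤ WP T z * (z + 2 ^ T) ^ 2 :=
          mul_le_mul (WM_le T hz) h1 (by positivity) (WP_nonneg _ _)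

/-- the factor for the guess `s` about the sign of `z` -/
def fac (T E : ℕ) (s : Bool) (z : ℤ) : ℤ := (if s = true then WP T z else WM T z) ^ E

theorem fac_nonneg (T E : ℕ) (s : Bool) (z : ℤ) : 0 ≤ fac T E s z := by
  unfold fac
  refine pow_nonneg ?_ E
  split_ifs
  · exact WP_nonneg _ _
  · exact WM_nonneg _ _

/-- `s` is the right guess -/
def Right (T : ℕ) (s : Bool) (z : ℤ) : Prop :=
  if s = true then 1 ≤ z ∧ z < 2 ^ T else z ≤ -1 ∧ -2 ^ T < z

theorem fac_one {T E : ℕ} {s : Bool} {z : ℤ} (h : Right T s z) : 1 ≤ fac T E s z := by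
  unfold fac
  unfold Right at h
  refine one_le_pow₀ ?_
  split_ifs at h ⊢ with hs
  · exact WP_pos T h.1
  · rw [← WP_neg]
    exact WP_pos T (z := -z) (by omega)

theorem fac_nine {T E : ℕ} {s : Bool} {z : ℤ} (h : Right T s z) :
    9 ^ E * fac T E (!s) z ≤ fac T E s z := by
  unfold fac
  unfold Right at h
  rw [← mul_pow]
  cases s with
  | true =>
    simp only [if_true, Bool.not_true, Bool.false_eq_true, if_false] at h ⊢
    exact pow_le_pow_left₀ (mul_nonneg (by norm_num) (WM_nonneg _ _)) (nine T h.1 h.2) E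
  | false =>
    simp only [if_true, Bool.not_false, Bool.false_eq_true, if_false] at h ⊢
    refine pow_le_pow_left₀ (mul_nonneg (by norm_num) (WP_nonneg _ _)) ?_ E
    have h1 := nine T (z := -z) (by omega) (by omega)
    rwa [WM_neg, WP_neg] at h1

theorem fac_le {T E : ℕ} {s s' : Bool} {z : ℤ} (h : Right T s z) : fac T E s' z ≤ fac T E s z := by
  by_cases hs : s' = s
  · rw [hs]
  · have e : s' = !s := by cases s <;> cases s' <;> simp_all
    rw [e]
    have h1 := fac_nine (E := E) h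
    have h2 := fac_nonneg T E (!s) z
    have h3 : (1 : ℤ) ≤ 9 ^ E := one_le_pow₀ (by norm_num)
    nlinarith

theorem list_le {β : Type} (f g : β → ℤ) : ∀ l : List β, (∀ x ∈ l, 0 ≤ f x) →
    (∀ x ∈ l, f x ≤ g x) → 0 ≤ (l.map f).prod ∧ (l.map f).prod ≤ (l.map g).prod
  | [], _, _ => by simp
  | x :: l, h0, h1 => by
    obtain ⟨ih1, ih2⟩ := list_le f g l (fun y hy => h0 y (by simp [hy]))
      (fun y hy => h1 y (by simp [hy]))
    have a1 := h0 x (by simp)
    have a2 := h1 x (by simp)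
    rw [List.map_cons, List.map_cons, List.prod_cons, List.prod_cons]
    exact ⟨mul_nonneg a1 ih1, mul_le_mul a2 ih2 ih1 (a1.trans a2)⟩

theorem list_dom {β : Type} (f g : β → ℤ) (K : ℤ) : ∀ l : List β,
    (∀ x ∈ l, 0 ≤ f x) → (∀ x ∈ l, f x ≤ g x) → (∃ x ∈ l, K * f x ≤ g x) →
    K * (l.map f).prod ≤ (l.map g).prod
  | [], _, _, h => by simp at h
  | x :: l, h0, h1, h => by
    obtain ⟨ih1, ih2⟩ := list_le f g l (fun y hy => h0 y (by simp [hy]))
      (fun y hy => h1 y (by simp [hy]))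
    have a1 := h0 x (by simp)
    have a2 := h1 x (by simp)
    rw [List.map_cons, List.map_cons, List.prod_cons, List.prod_cons]
    obtain ⟨y, hy, h2⟩ := h
    rw [List.mem_cons] at hy
    rcases hy with rfl | hy
    · calc K * (f y * (l.map f).prod) = (K * f y) * (l.map f).prod := by ring
        _ ≤ g y * (l.map f).prod := mul_le_mul_of_nonneg_right h2 ih1
        _ ≤ g y * (l.map g).prod := mul_le_mul_of_nonneg_left ih2 (a1.trans a2)
    · have ih := list_dom f g K l (fun y hy => h0 y (by simp [hy]))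
        (fun y hy => h1 y (by simp [hy])) ⟨y, hy, h2⟩
      calc K * (f x * (l.map f).prod) = f x * (K * (l.map f).prod) := by ring
        _ ≤ f x * (l.map g).prod := mul_le_mul_of_nonneg_left ih a1
        _ ≤ g x * (l.map g).prod := mul_le_mul_of_nonneg_right a2 (ih1.trans ih2)

theorem list_one {β : Type} (f : β → ℤ) : ∀ l : List β, (∀ x ∈ l, 1 ≤ f x) → 1 ≤ (l.map f).prod
  | [], _ => by simp
  | x :: l, h => by
    have ih := list_one f l (fun y hy => h y (by simp [hy]))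
    have a := h x (by simp)
    rw [List.map_cons, List.prod_cons]
    nlinarith

/-- the `j`-th weight at `u`, for the cuts `c` -/
def wt (T E : ℕ) (c : List ℕ) (u : ℤ) (j : ℕ) : ℤ :=
  (c.zipIdx.map (fun x => fac T E (decide (x.2 < j)) (2 * u - (2 * (x.1 : ℤ) - 1)))).prod

/-- `u` is in the segment `j` of the cuts -/
def Seg (c : List ℕ) (u : ℕ) (j : ℕ) : Prop :=
  ∀ x ∈ c.zipIdx, (x.2 < j → x.1 ≤ u) ∧ (j ≤ x.2 → u < x.1)

theorem right_of {c : List ℕ} {u j B : ℕ} (h : Seg c u j) (hu : u < 2 ^ B)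
    (hc : ∀ x ∈ c, x ≤ 2 ^ B ∧ 1 ≤ x) {x : ℕ × ℕ} (hx : x ∈ c.zipIdx) :
    Right (B + 1) (decide (x.2 < j)) (2 * (u : ℤ) - (2 * (x.1 : ℤ) - 1)) := by
  have h1 := h x hx
  have h2 := hc x.1 (List.fst_mem_of_mem_zipIdx hx)
  have h3 : (u : ℤ) < 2 ^ B := by exact_mod_cast hu
  have h4 : (x.1 : ℤ) ≤ 2 ^ B := by exact_mod_cast h2.1
  have h5 : (1 : ℤ) ≤ x.1 := by exact_mod_cast h2.2
  unfold Right
  rw [pow_succ]
  by_cases h6 : x.2 < j
  · have h7 : (x.1 : ℤ) ≤ u := by exact_mod_cast h1.1 h6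
    simp only [h6, decide_true, if_true]
    constructor <;> omega
  · have h7 : (u : ℤ) < x.1 := by exact_mod_cast h1.2 (by omega)
    simp only [h6, decide_false, Bool.false_eq_true, if_false]
    constructor <;> omega

theorem wt_nonneg (T E : ℕ) (c : List ℕ) (u : ℤ) (j : ℕ) : 0 ≤ wt T E c u j := by
  unfold wt
  exact (list_le _ _ c.zipIdx (fun x _ => fac_nonneg _ _ _ _) (fun x _ => le_rfl)).1

theorem wt_one {c : List ℕ} {u js B E : ℕ} (h : Seg c u js) (hu : u < 2 ^ B)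
    (hc : ∀ x ∈ c, x ≤ 2 ^ B ∧ 1 ≤ x) : 1 ≤ wt (B + 1) E c u js :=
  list_one _ _ fun _ hx => fac_one (right_of h hu hc hx)

theorem wt_dom {cs : List ℕ} {u js j B E : ℕ} (h : Seg cs u js) (hu : u < 2 ^ B)
    (hc : ∀ x ∈ cs, x ≤ 2 ^ B ∧ 1 ≤ x) (hj : j ≤ cs.length) (hjs : js ≤ cs.length) (hne : j ≠ js) :
    9 ^ E * wt (B + 1) E cs u j ≤ wt (B + 1) E cs u js := by
  unfold wt
  refine list_dom _ _ _ _ (fun x _ => fac_nonneg _ _ _ _)
    (fun x hx => fac_le (right_of h hu hc hx)) ?_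
  have hq : min j js < cs.length := by omega
  refine ⟨(cs[min j js]'hq, min j js), ?_, ?_⟩
  · rw [List.mem_zipIdx_iff_getElem?]
    simp [hq]
  · have hx : (cs[min j js]'hq, min j js) ∈ cs.zipIdx := by
      rw [List.mem_zipIdx_iff_getElem?]
      simp [hq]
    have h1 := fac_nine (E := E) (right_of h hu hc hx)
    have e : (!decide (min j js < js)) = decide (min j js < j) := by
      by_cases h2 : j < js
      · have e1 : min j js = j := by omega
        rw [e1]; simp [h2]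
      · have e1 : min j js = js := by omega
        have h3 : js < j := by omega
        rw [e1]; simp [h3]
    simp only at h1 ⊢
    rw [e] at h1
    exact h1

end Pool.Agent.Y597.Shp
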