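import Pool.Agent.Y597.Shp.Prune

/-!
# Excluding one shape of a vector of counts is as hard as counting
-/

set_option autoImplicit false

namespace Pool.Agent.Y597.Shp

open Pool.Agent.NPC Pool.Agent.NPC.Cnt Pool.Agent.W901.NU

variable {α β : Type} [TEnc α] [TEnc β]

/-! ### Polynomial time -/

theorem poly_digs {W n U : α → ℕ} (hW : UPoly W) (hn : UPoly n) (hU : NPC.Poly U) :
    NPC.Poly (fun a => digs (W a) (n a) (U a)) := by
  unfold digs
  refine NPC.Poly.map (l := fun a => List.range (n a))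
    (F := fun a l => U a / 2 ^ (W a * min l (n a)) % 2 ^ (W a)) hn.range ?_
  have f1 : NPC.Poly (fun p : α × ℕ => p.1) := by fun_prop
  have hW1 : UPoly (fun p : α × ℕ => W p.1) := hW.comp f1
  have hn1 : UPoly (fun p : α × ℕ => n p.1) := hn.comp f1
  have h1 : UPoly (fun p : α × ℕ => min p.2 (n p.1)) :=
    UPoly.of_le (NPC.Poly.min (by fun_prop) hn1.toPoly) hn1 fun _ => min_le_right _ _
  exact NPC.Poly.mod (NPC.Poly.div (hU.comp f1) (two_pow_poly (UPoly.mul hW1 h1)))
    (two_pow_poly hW1)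

theorem poly_sums {n : α → ℕ} {v : α → List ℕ} (hn : UPoly n) (hv : NPC.Poly v) :
    NPC.Poly (fun a => sums (n a) (v a)) := by
  unfold sums
  refine NPC.Poly.map (l := fun a => List.range (n a))
    (F := fun a l => (v a).getD (2 * l) 0 + (v a).getD (2 * l + 1) 0) hn.range ?_
  have f1 : NPC.Poly (fun p : α × ℕ => p.1) := by fun_prop
  have hv1 : NPC.Poly (fun p : α × ℕ => v p.1) := hv.comp f1
  exact NPC.Poly.add (NPC.Poly.getD hv1 (by fun_prop) (NPC.Poly.const 0))
    (NPC.Poly.getD hv1 (by fun_prop) (NPC.Poly.const 0))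

theorem poly_joinH {n : α → ℕ} {H : α → List (ℕ × List ℕ)} {D : α → List (List ℕ)}
    (hn : UPoly n) (hH : NPC.Poly H) (hD : NPC.Poly D) :
    NPC.Poly (fun a => joinH (n a) (H a) (D a)) := by
  unfold joinH
  refine NPC.Poly.flatMap (l := D) (F := fun a v =>
    (((H a).filter (fun h => decide (h.2 = sums (n a) v))).take 1).map (fun h => (h.1, v))) hD ?_
  have f1 : NPC.Poly (fun p : α × List ℕ => p.1) := by fun_prop
  have hH1 : NPC.Poly (fun p : α × List ℕ => H p.1) := hH.comp f1
  have h1 : NPC.Poly (fun p : α × List ℕ => sums (n p.1) p.2) :=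
    poly_sums (hn.comp f1) (by fun_prop)
  have h2 : NPC.Poly (fun p : α × List ℕ =>
      (H p.1).filter (fun h => decide (h.2 = sums (n p.1) p.2))) :=
    NPC.Poly.filter (p := fun p h => decide (h.2 = sums (n p.1) p.2)) hH1
      (NPC.Poly.decide_eq (by fun_prop) (h1.comp (by fun_prop)))
  exact NPC.Poly.map (F := fun p h => (h.1, p.2)) (poly_tk h2 (NPC.Poly.const 1)) (by fun_prop)

theorem poly_sepJ {n : α → ℕ} {D : α → List (ℕ × List ℕ)} (hn : UPoly n) (hD : NPC.Poly D) :
    NPC.Poly (fun a => sepJ (n a) (D a)) := by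
  unfold sepJ
  refine NPC.Poly.flatMap (l := D) (F := fun a x => (D a).flatMap (fun y =>
    ((List.range (n a)).filter (fun l => decide (¬ x.2.getD l 0 = y.2.getD l 0))).take 1)) hD ?_
  refine NPC.Poly.flatMap (l := fun p : α × (ℕ × List ℕ) => D p.1) (F := fun p y =>
    ((List.range (n p.1)).filter (fun l => decide (¬ p.2.2.getD l 0 = y.2.getD l 0))).take 1)
    (hD.comp (NPC.Poly.fst NPC.Poly.id)) ?_
  refine poly_tk ?_ (NPC.Poly.const 1)
  refine NPC.Poly.filter (l := fun p : (α × (ℕ × List ℕ)) × (ℕ × List ℕ) =>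
    List.range (n p.1.1)) (p := fun p l => decide (¬ p.1.2.2.getD l 0 = p.2.2.getD l 0))
    (hn.range.comp (NPC.Poly.fst (NPC.Poly.fst NPC.Poly.id))) ?_
  refine NPC.Poly.decide_not (NPC.Poly.decide_eq ?_ ?_)
  · exact NPC.Poly.getD (by fun_prop) (by fun_prop) (NPC.Poly.const 0)
  · exact NPC.Poly.getD (by fun_prop) (by fun_prop) (NPC.Poly.const 0)

theorem poly_restr {Q : α → List (List Bool)} {D : α → List (ℕ × List ℕ)} (hQ : NPC.Poly Q)
    (hD : NPC.Poly D) : NPC.Poly (fun a => restr (Q a) (D a)) := by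
  unfold restr
  have hJ : NPC.Poly (fun a => sepJ (Q a).length (D a)) := poly_sepJ (UPoly.length hQ) hD
  refine NPC.Poly.pair ?_ ?_
  · exact NPC.Poly.map (F := fun a l => (Q a).getD l []) hJ
      (NPC.Poly.getD (hQ.comp (NPC.Poly.fst NPC.Poly.id)) (by fun_prop) (NPC.Poly.const []))
  · refine NPC.Poly.map (F := fun a x => (x.1, (sepJ (Q a).length (D a)).map
      (fun l => x.2.getD l 0))) hD (NPC.Poly.pair (by fun_prop) ?_)
    refine NPC.Poly.map (l := fun p : α × (ℕ × List ℕ) => sepJ (Q p.1).length (D p.1))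
      (F := fun p l => p.2.2.getD l 0) (hJ.comp (NPC.Poly.fst NPC.Poly.id)) ?_
    exact NPC.Poly.getD (by fun_prop) (by fun_prop) (NPC.Poly.const 0)

theorem poly_kidP {P : α → List (List Bool)} (hP : NPC.Poly P) :
    NPC.Poly (fun a => kidP (P a)) := by
  unfold kidP
  fun_prop

theorem poly_step {W : β → ℕ} {cd : β → List (List Bool) → List ℕ} (hW : UPoly W)
    (hcd : NPC.Poly (fun p : β × List (List Bool) => cd p.1 p.2)) {x : α → β} {s : α → St}
    (hx : NPC.Poly x) (hs : NPC.Poly s) :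
    NPC.Poly (fun a => step (W (x a)) (cd (x a)) (s a)) := by
  unfold step
  have h1 : NPC.Poly (fun a => kidP (s a).1) := poly_kidP (NPC.Poly.fst hs)
  have h2 : NPC.Poly (fun a => cd (x a) (kidP (s a).1)) := hcd.comp (NPC.Poly.pair hx h1)
  have h3 : NPC.Poly (fun a => (cd (x a) (kidP (s a).1)).map
      (digs (W (x a)) (kidP (s a).1).length)) := by
    refine NPC.Poly.map (F := fun a U => digs (W (x a)) (kidP (s a).1).length U) h2 ?_
    exact poly_digs (hW.comp (hx.comp (NPC.Poly.fst NPC.Poly.id)))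
      ((UPoly.length h1).comp (NPC.Poly.fst NPC.Poly.id)) (NPC.Poly.snd NPC.Poly.id)
  exact poly_restr h1 (poly_joinH (UPoly.length (NPC.Poly.fst hs)) (NPC.Poly.snd hs) h3)

/-! ### The whole algorithm -/

def init (cd : List (List Bool) → List ℕ) : St :=
  ([[]], (cd [[]]).map (fun U => (U, [U])))

def run (W L : ℕ) (cd : List (List Bool) → List ℕ) : St :=
  (List.range L).foldl (fun s _ => step W cd s) (init cd)

theorem run_succ (W n : ℕ) (cd : List (List Bool) → List ℕ) :
    run W (n + 1) cd = step W cd (run W n cd) := by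
  unfold run
  rw [List.range_succ, List.foldl_append]
  rfl

theorem run_bd {R W : ℕ} {cd : List (List Bool) → List ℕ} (h1 : ∀ Q, (cd Q).length ≤ R)
    (h2 : ∀ U ∈ cd [[]], U < 2 ^ W) : ∀ n, Bd R W n (run W n cd)
  | 0 => by
    refine ⟨?_, ?_, ?_, ?_⟩
    · show 1 ≤ _
      omega
    · intro p hp
      have : p = [] := by simpa [run, init] using hp
      simp [this]
    · show ((cd [[]]).map _).length ≤ R
      rw [List.length_map]
      exact h1 _
    · intro h hh
      have hh' : h ∈ (cd [[]]).map (fun U => (U, [U])) := hh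
      rw [List.mem_map] at hh'
      obtain ⟨U, hU, rfl⟩ := hh'
      refine ⟨h2 U hU, ?_, ?_⟩
      · show 1 ≤ _
        omega
      · intro e he
        have : e = U := by simpa using he
        rw [this]
        exact h2 U hU
  | n + 1 => by
    rw [run_succ]
    exact step_bd (run_bd h1 h2 n) (h1 _)

/-- the sizes of the lists of prefixes that occur -/
def Small (R L : ℕ) (Q : List (List Bool)) : Prop :=
  Q.length ≤ 2 * (R * R + 1) ∧ ∀ q ∈ Q, q.length ≤ L

theorem small_kid {R W n L : ℕ} {s : St} (h : Bd R W n s) (hn : n < L) :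
    Small R L (kidP s.1) := by
  refine ⟨?_, fun q hq => ?_⟩
  · rw [length_kidP]
    have := h.1
    omega
  · unfold kidP at hq
    rw [List.mem_flatMap] at hq
    obtain ⟨p, hp, hq⟩ := hq
    have := h.2.1 p hp
    simp only [List.mem_cons, List.not_mem_nil, or_false] at hq
    rcases hq with rfl | rfl <;> simp <;> omega

theorem run_inv {R W L : ℕ} {cd : List (List Bool) → List ℕ} {f : List Bool → ℕ}
    (h1 : ∀ Q, (cd Q).length ≤ R) (h2 : ∀ U ∈ cd [[]], U < 2 ^ W) (hf : ∀ p, f p < 2 ^ W)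
    (hstep : ∀ p, p.length < L → f p = f (p ++ [false]) + f (p ++ [true]))
    (hcd : ∀ Q, Small R L Q → encL W (Q.map f) ∈ cd Q) :
    ∀ n ≤ L, Inv f (f []) n (run W n cd)
  | 0, _ => by
    refine ⟨?_, ?_, ?_⟩
    · intro p hp
      have : p = [] := by simpa [run, init] using hp
      simp [this]
    · show (f [], [f []]) ∈ (cd [[]]).map (fun U => (U, [U]))
      rw [List.mem_map]
      refine ⟨f [], ?_, rfl⟩
      have h3 := hcd [[]] ⟨by simp; omega, by simp⟩
      simpa [encL] using h3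
    · intro h hh he
      have hh' : h ∈ (cd [[]]).map (fun U => (U, [U])) := hh
      rw [List.mem_map] at hh'
      obtain ⟨U, hU, rfl⟩ := hh'
      have he' : [U] = [f []] := he
      simpa using he'
  | n + 1, hn => by
    rw [run_succ]
    exact step_inv (run_inv h1 h2 hf hstep hcd n (by omega)) hf
      (fun p hp => hstep p (by omega)) (hcd _ (small_kid (run_bd h1 h2 n) (by omega)))

/-- the output -/
def outp (leaf : List Bool → ℕ) (s : St) : ℕ :=
  ((s.2.filter (fun h => decide (h.2 = s.1.map leaf))).map (fun h => h.1)).head?.getD 0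

theorem outp_eq {f leaf : List Bool → ℕ} {ρ L : ℕ} {s : St} (h : Inv f ρ L s)
    (hl : ∀ p, p.length = L → leaf p = f p) : outp leaf s = ρ := by
  obtain ⟨h1, h2, h3⟩ := h
  have e : s.1.map leaf = s.1.map f := List.map_congr_left fun p hp => hl p (h1 p hp)
  unfold outp
  rw [e]
  have h4 : (ρ, s.1.map f) ∈ s.2.filter (fun h => decide (h.2 = s.1.map f)) := by
    rw [List.mem_filter]
    exact ⟨h2, by simp⟩
  obtain ⟨h0, t, h5⟩ := List.exists_cons_of_ne_nil (List.ne_nil_of_mem h4)
  have h6 : h0 ∈ s.2.filter (fun h => decide (h.2 = s.1.map f)) := by rw [h5]; simp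
  rw [List.mem_filter] at h6
  rw [h5]
  simpa using h3 h0 h6.1 (by simpa using h6.2)

theorem poly_run {W L : β → ℕ} {cd : β → List (List Bool) → List ℕ} {R : β → ℕ} (hW : UPoly W)
    (hL : UPoly L) (hR : UPoly R) (hcd : NPC.Poly (fun p : β × List (List Bool) => cd p.1 p.2))
    (h1 : ∀ b Q, (cd b Q).length ≤ R b) (h2 : ∀ b, ∀ U ∈ cd b [[]], U < 2 ^ W b) :
    NPC.Poly (fun b => run (W b) (L b) (cd b)) := by
  obtain ⟨pR, hpR⟩ := upoly_le_eval hR
  obtain ⟨pW, hpW⟩ := upoly_le_eval hW
  obtain ⟨pL, hpL⟩ := upoly_le_eval hL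
  unfold run
  have hinit : NPC.Poly (fun b => init (cd b)) := by
    unfold init
    have h3 : NPC.Poly (fun b => cd b [[]]) := hcd.comp (NPC.Poly.pair NPC.Poly.id (NPC.Poly.const _))
    exact NPC.Poly.pair (NPC.Poly.const _) (NPC.Poly.map (F := fun _ U => (U, [U])) h3 (by fun_prop))
  refine NPC.Poly.foldl (l := fun b => List.range (L b)) (s := fun b => init (cd b))
    (F := fun b s _ => step (W b) (cd b) s) hL.range hinit
    (poly_step hW hcd (NPC.Poly.fst NPC.Poly.id) (NPC.Poly.fst (NPC.Poly.snd NPC.Poly.id)))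
    (((pR * pR + Polynomial.C 1) * (Polynomial.C 4 * pL + Polynomial.C 2) + Polynomial.C 1) +
      (pR * ((Polynomial.C 4 * pW + Polynomial.C 1) + ((pR * pR + Polynomial.C 1) *
        (Polynomial.C 4 * pW + Polynomial.C 2) + Polynomial.C 1) + Polynomial.C 1 +
          Polynomial.C 1) + Polynomial.C 1) + Polynomial.C 1) ?_
  intro b k hk
  rw [List.length_range] at hk
  rw [List.take_range, min_eq_left hk]
  have h3 := run_bd (h1 b) (h2 b) k
  have h4 := sz_bd h3
  have e : (List.range k).foldl (fun s _ => step (W b) (cd b) s) (init (cd b)) =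
      run (W b) k (cd b) := rfl
  rw [e]
  refine h4.trans ?_
  simp only [Polynomial.eval_add, Polynomial.eval_mul, Polynomial.eval_C]
  have a1 := hpR b
  have a2 := hpW b
  have a3 : k ≤ pL.eval (sz b) := hk.trans (hpL b)
  gcongr

end Pool.Agent.Y597.Shp
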