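import Pool.Agent.Y597.Shp.Ps

/-!
# From few candidates to the exact number of certificates
-/

set_option autoImplicit false

namespace Pool.Agent.Y597.Shp

open Pool.Agent.NPC Pool.Agent.NPC.Cnt Pool.Agent.W901.NU

/-! ### Numbers as vectors -/

def encL (W : ℕ) : List ℕ → ℕ
  | [] => 0
  | v :: vs => v + 2 ^ W * encL W vs

def digs (W n U : ℕ) : List ℕ := (List.range n).map (fun l => U / 2 ^ (W * min l n) % 2 ^ W)

theorem encL_zipIdx (W : ℕ) : ∀ (vs : List ℕ) (n : ℕ),
    ((vs.zipIdx n).map (fun y => y.1 * 2 ^ (W * y.2))).sum = 2 ^ (W * n) * encL W vs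
  | [], n => by simp [encL]
  | v :: vs, n => by
    rw [List.zipIdx_cons, List.map_cons, List.sum_cons, encL_zipIdx W vs (n + 1), encL,
      Nat.mul_add W n 1, pow_add]
    ring

theorem encL_lt (W : ℕ) : ∀ vs : List ℕ, (∀ v ∈ vs, v < 2 ^ W) → encL W vs < 2 ^ (W * vs.length)
  | [], _ => by simp [encL]
  | v :: vs, h => by
    have ih := encL_lt W vs (fun x hx => h x (by simp [hx]))
    have hv := h v (by simp)
    rw [encL, List.length_cons, Nat.mul_add, mul_one, pow_add, mul_comm (2 ^ (W * vs.length))]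
    calc v + 2 ^ W * encL W vs < 2 ^ W + 2 ^ W * encL W vs := by omega
      _ = 2 ^ W * (encL W vs + 1) := by ring
      _ ≤ 2 ^ W * 2 ^ (W * vs.length) := Nat.mul_le_mul_left _ ih

theorem encL_dig (W : ℕ) : ∀ (vs : List ℕ) (l : ℕ), (∀ v ∈ vs, v < 2 ^ W) →
    encL W vs / 2 ^ (W * l) % 2 ^ W = vs.getD l 0
  | [], l, _ => by simp [encL]
  | v :: vs, 0, h => by
    have hv := h v (by simp)
    rw [encL, mul_zero, pow_zero, Nat.div_one, Nat.add_mul_mod_self_left, Nat.mod_eq_of_lt hv]
    simp
  | v :: vs, l + 1, h => by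
    have hv := h v (by simp)
    have ih := encL_dig W vs l (fun x hx => h x (by simp [hx]))
    rw [encL, Nat.mul_add, mul_one, pow_add, mul_comm (2 ^ (W * l)), ← Nat.div_div_eq_div_mul,
      Nat.add_mul_div_left _ _ (by positivity), Nat.div_eq_of_lt hv, zero_add, ih]
    simp

theorem digs_encL {W : ℕ} {vs : List ℕ} (h : ∀ v ∈ vs, v < 2 ^ W) :
    digs W vs.length (encL W vs) = vs := by
  unfold digs
  apply List.ext_getElem
  · simp
  · intro i h1 h2
    rw [List.getElem_map, List.getElem_range, min_eq_left h2.le, encL_dig W vs i h]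
    rw [List.getD_eq_getElem?_getD, List.getElem?_eq_getElem h2]
    rfl

theorem digs_length (W n U : ℕ) : (digs W n U).length = n := by simp [digs]

theorem digs_lt {W n U x : ℕ} (hx : x ∈ digs W n U) : x < 2 ^ W := by
  unfold digs at hx
  rw [List.mem_map] at hx
  obtain ⟨l, _, rfl⟩ := hx
  exact Nat.mod_lt _ (by positivity)

/-! ### One step -/

abbrev St : Type := List (List Bool) × List (ℕ × List ℕ)

def kidP (P : List (List Bool)) : List (List Bool) :=
  P.flatMap (fun p => [p ++ [false], p ++ [true]])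

def sums (n : ℕ) (v : List ℕ) : List ℕ :=
  (List.range n).map (fun l => v.getD (2 * l) 0 + v.getD (2 * l + 1) 0)

/-- the hypotheses of the next level -/
def joinH (n : ℕ) (H : List (ℕ × List ℕ)) (D : List (List ℕ)) : List (ℕ × List ℕ) :=
  D.flatMap (fun v => ((H.filter (fun h => decide (h.2 = sums n v))).take 1).map
    (fun h => (h.1, v)))

/-- coordinates which separate the hypotheses -/
def sepJ (n : ℕ) (D : List (ℕ × List ℕ)) : List ℕ :=
  D.flatMap (fun a => D.flatMap (fun b =>
    ((List.range n).filter (fun l => decide (¬ a.2.getD l 0 = b.2.getD l 0))).take 1))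

def restr (Q : List (List Bool)) (D : List (ℕ × List ℕ)) : St :=
  ((sepJ Q.length D).map (fun l => Q.getD l []),
    D.map (fun a => (a.1, (sepJ Q.length D).map (fun l => a.2.getD l 0))))

def step (W : ℕ) (cd : List (List Bool) → List ℕ) (s : St) : St :=
  restr (kidP s.1) (joinH s.1.length s.2 ((cd (kidP s.1)).map (digs W (kidP s.1).length)))

/-- the invariant -/
def Inv (f : List Bool → ℕ) (ρ i : ℕ) (s : St) : Prop :=
  (∀ p ∈ s.1, p.length = i) ∧ (ρ, s.1.map f) ∈ s.2 ∧ ∀ h ∈ s.2, h.2 = s.1.map f → h.1 = ρ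

theorem sums_kid (f : List Bool → ℕ) : ∀ P : List (List Bool),
    sums P.length ((kidP P).map f) = P.map (fun p => f (p ++ [false]) + f (p ++ [true]))
  | [] => by simp [sums]
  | p :: P => by
    have ih := sums_kid f P
    have e : kidP (p :: P) = (p ++ [false]) :: (p ++ [true]) :: kidP P := rfl
    rw [e, List.length_cons, List.map_cons, List.map_cons, List.map_cons]
    unfold sums at ih ⊢
    rw [List.range_succ_eq_map, List.map_cons, List.map_map]
    congr 1

theorem length_kidP (P : List (List Bool)) : (kidP P).length = 2 * P.length := by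
  induction P with
  | nil => rfl
  | cons p P ih =>
    have e : kidP (p :: P) = (p ++ [false]) :: (p ++ [true]) :: kidP P := rfl
    rw [e, List.length_cons, List.length_cons, List.length_cons, ih]
    ring

theorem mem_kidP {P : List (List Bool)} {i : ℕ} (h : ∀ p ∈ P, p.length = i) {q : List Bool}
    (hq : q ∈ kidP P) : q.length = i + 1 := by
  unfold kidP at hq
  rw [List.mem_flatMap] at hq
  obtain ⟨p, hp, hq⟩ := hq
  simp only [List.mem_cons, List.not_mem_nil, or_false] at hq
  rcases hq with rfl | rfl <;> simp [h p hp]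

theorem mem_sepJ {n l : ℕ} {D : List (ℕ × List ℕ)} (h : l ∈ sepJ n D) : l < n := by
  unfold sepJ at h
  rw [List.mem_flatMap] at h
  obtain ⟨a, _, h⟩ := h
  rw [List.mem_flatMap] at h
  obtain ⟨b, _, h⟩ := h
  have h1 := List.mem_of_mem_take h
  rw [List.mem_filter, List.mem_range] at h1
  exact h1.1

theorem sep_eq {n : ℕ} {D : List (ℕ × List ℕ)} {a b : ℕ × List ℕ} (ha : a ∈ D) (hb : b ∈ D)
    (la : a.2.length = n) (lb : b.2.length = n)
    (h : (sepJ n D).map (fun l => a.2.getD l 0) = (sepJ n D).map (fun l => b.2.getD l 0)) :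
    a.2 = b.2 := by
  by_contra hne
  have h1 : ∃ l, l < n ∧ ¬ a.2.getD l 0 = b.2.getD l 0 := by
    by_contra h2
    push Not at h2
    apply hne
    apply List.ext_getElem (by omega)
    intro i h3 h4
    have := h2 i (by omega)
    rw [List.getD_eq_getElem?_getD, List.getD_eq_getElem?_getD, List.getElem?_eq_getElem h3,
      List.getElem?_eq_getElem h4] at this
    exact this
  obtain ⟨l, hl, hl2⟩ := h1
  have h2 : (List.range n).filter (fun l => decide (¬ a.2.getD l 0 = b.2.getD l 0)) ≠ [] := by
    intro h3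
    have h4 : l ∈ (List.range n).filter (fun l => decide (¬ a.2.getD l 0 = b.2.getD l 0)) := by
      rw [List.mem_filter, List.mem_range]
      exact ⟨hl, by simpa using hl2⟩
    rw [h3] at h4
    simp at h4
  obtain ⟨l0, t, h3⟩ := List.exists_cons_of_ne_nil h2
  have h4 : l0 ∈ (List.range n).filter (fun l => decide (¬ a.2.getD l 0 = b.2.getD l 0)) := by
    rw [h3]; simp
  rw [List.mem_filter] at h4
  have h5 : l0 ∈ sepJ n D := by
    unfold sepJ
    rw [List.mem_flatMap]
    refine ⟨a, ha, ?_⟩
    rw [List.mem_flatMap]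
    refine ⟨b, hb, ?_⟩
    rw [h3]
    simp
  rw [List.map_inj_left] at h
  have h6 := h l0 h5
  have h7 : ¬ a.2.getD l0 0 = b.2.getD l0 0 := by simpa using h4.2
  exact h7 h6

theorem step_inv {W : ℕ} {cd : List (List Bool) → List ℕ} {f : List Bool → ℕ} {ρ i : ℕ} {s : St}
    (hs : Inv f ρ i s) (hf : ∀ p, f p < 2 ^ W)
    (hstep : ∀ p, p.length = i → f p = f (p ++ [false]) + f (p ++ [true]))
    (hcd : encL W ((kidP s.1).map f) ∈ cd (kidP s.1)) : Inv f ρ (i + 1) (step W cd s) := by
  obtain ⟨h1, h2, h3⟩ := hs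
  set Q := kidP s.1 with hQ
  set D := (cd Q).map (digs W Q.length) with hD
  set D' := joinH s.1.length s.2 D with hD'
  have hvD : Q.map f ∈ D := by
    rw [hD, List.mem_map]
    refine ⟨_, hcd, ?_⟩
    have e := digs_encL (W := W) (vs := Q.map f) (by
      intro v hv
      rw [List.mem_map] at hv
      obtain ⟨p, _, rfl⟩ := hv
      exact hf p)
    rwa [List.length_map] at e
  have hsum : sums s.1.length (Q.map f) = s.1.map f := by
    rw [hQ, sums_kid]
    exact List.map_congr_left fun p hp => (hstep p (h1 p hp)).symm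
  have hmem : (ρ, Q.map f) ∈ D' := by
    rw [hD', joinH, List.mem_flatMap]
    refine ⟨Q.map f, hvD, ?_⟩
    rw [hsum, List.mem_map]
    have h4 : (ρ, s.1.map f) ∈ s.2.filter (fun h => decide (h.2 = s.1.map f)) := by
      rw [List.mem_filter]
      exact ⟨h2, by simp⟩
    obtain ⟨h0, t, h5⟩ := List.exists_cons_of_ne_nil (List.ne_nil_of_mem h4)
    have h6 : h0 ∈ s.2.filter (fun h => decide (h.2 = s.1.map f)) := by rw [h5]; simp
    rw [List.mem_filter] at h6
    refine ⟨h0, by rw [h5]; simp, ?_⟩
    rw [h3 h0 h6.1 (by simpa using h6.2)]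
  have huniq : ∀ a ∈ D', a.2 = Q.map f → a.1 = ρ := by
    intro a ha ha2
    rw [hD', joinH, List.mem_flatMap] at ha
    obtain ⟨v, _, ha⟩ := ha
    rw [List.mem_map] at ha
    obtain ⟨h0, h5, rfl⟩ := ha
    have h6 := List.mem_of_mem_take h5
    rw [List.mem_filter] at h6
    simp only at ha2
    subst ha2
    rw [hsum] at h6
    exact h3 h0 h6.1 (by simpa using h6.2)
  have hlen : ∀ a ∈ D', a.2.length = Q.length := by
    intro a ha
    rw [hD', joinH, List.mem_flatMap] at ha
    obtain ⟨v, hv, ha⟩ := ha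
    rw [List.mem_map] at ha
    obtain ⟨h0, h5, rfl⟩ := ha
    rw [hD, List.mem_map] at hv
    obtain ⟨U, _, rfl⟩ := hv
    exact digs_length _ _ _
  have hmap : (sepJ Q.length D').map (fun l => (Q.map f).getD l 0) =
      ((sepJ Q.length D').map (fun l => Q.getD l [])).map f := by
    rw [List.map_map]
    refine List.map_congr_left fun l hl => ?_
    have hl' := mem_sepJ hl
    simp only [Function.comp]
    rw [List.getD_eq_getElem?_getD, List.getD_eq_getElem?_getD, List.getElem?_map,
      List.getElem?_eq_getElem hl']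
    rfl
  have e : step W cd s = restr Q D' := rfl
  rw [e]
  refine ⟨fun p hp => ?_, ?_, fun h hh hh2 => ?_⟩
  · simp only [restr, List.mem_map] at hp
    obtain ⟨l, hl, rfl⟩ := hp
    have hl' := mem_sepJ hl
    rw [List.getD_eq_getElem?_getD, List.getElem?_eq_getElem hl']
    exact mem_kidP h1 (List.getElem_mem hl')
  · simp only [restr]
    rw [List.mem_map]
    exact ⟨(ρ, Q.map f), hmem, by rw [hmap]⟩
  · simp only [restr] at hh hh2
    rw [List.mem_map] at hh
    obtain ⟨a, ha, rfl⟩ := hh
    simp only at hh2 ⊢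
    refine huniq a ha ?_
    refine sep_eq ha hmem (hlen a ha) (by rw [List.length_map]) ?_
    simp only
    rw [hh2, hmap]

/-! ### The sizes -/

/-- the size of a state is under control -/
def Bd (R W i : ℕ) (s : St) : Prop :=
  s.1.length ≤ R * R + 1 ∧ (∀ p ∈ s.1, p.length ≤ i) ∧ s.2.length ≤ R ∧
    ∀ h ∈ s.2, h.1 < 2 ^ W ∧ h.2.length ≤ R * R + 1 ∧ ∀ e ∈ h.2, e < 2 ^ W

theorem length_flatMap_le {β γ : Type} (f : β → List γ) (c : ℕ) : ∀ l : List β,
    (∀ x ∈ l, (f x).length ≤ c) → (l.flatMap f).length ≤ l.length * c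
  | [], _ => by simp
  | x :: l, h => by
    have ih := length_flatMap_le f c l (fun y hy => h y (by simp [hy]))
    have := h x (by simp)
    rw [List.flatMap_cons, List.length_append, List.length_cons, Nat.add_mul]
    omega

theorem length_joinH (n : ℕ) (H : List (ℕ × List ℕ)) (D : List (List ℕ)) :
    (joinH n H D).length ≤ D.length := by
  unfold joinH
  refine (length_flatMap_le _ 1 D fun v _ => ?_).trans (by omega)
  rw [List.length_map]
  exact List.length_take_le _ _

theorem length_sepJ (n : ℕ) (D : List (ℕ × List ℕ)) :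
    (sepJ n D).length ≤ D.length * D.length := by
  unfold sepJ
  refine length_flatMap_le _ D.length D fun a _ => ?_
  refine (length_flatMap_le _ 1 D fun b _ => List.length_take_le _ _).trans (by omega)

theorem step_bd {R W i : ℕ} {cd : List (List Bool) → List ℕ} {s : St} (hs : Bd R W i s)
    (hcd : (cd (kidP s.1)).length ≤ R) : Bd R W (i + 1) (step W cd s) := by
  obtain ⟨_, h2, _, h4⟩ := hs
  set Q := kidP s.1 with hQ
  set D := (cd Q).map (digs W Q.length) with hD
  set D' := joinH s.1.length s.2 D with hD'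
  have e : step W cd s = restr Q D' := rfl
  have hDl : D'.length ≤ R := by
    refine (length_joinH _ _ _).trans ?_
    rw [hD, List.length_map]
    exact hcd
  have hJ : (sepJ Q.length D').length ≤ R * R + 1 := by
    have := (length_sepJ Q.length D').trans (Nat.mul_le_mul hDl hDl)
    omega
  rw [e]
  refine ⟨?_, fun p hp => ?_, ?_, fun h hh => ?_⟩
  · simp only [restr, List.length_map]
    exact hJ
  · simp only [restr, List.mem_map] at hp
    obtain ⟨l, hl, rfl⟩ := hp
    have hl' := mem_sepJ hl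
    rw [List.getD_eq_getElem?_getD, List.getElem?_eq_getElem hl']
    have hmem : Q[l] ∈ kidP s.1 := List.getElem_mem hl'
    show (Q[l]).length ≤ i + 1
    unfold kidP at hmem
    rw [List.mem_flatMap] at hmem
    obtain ⟨p, hp, hq⟩ := hmem
    have h5 := h2 p hp
    simp only [List.mem_cons, List.not_mem_nil, or_false] at hq
    rcases hq with hq | hq <;> rw [hq] <;> simp [h5]
  · simp only [restr, List.length_map]
    exact hDl
  · simp only [restr, List.mem_map] at hh
    obtain ⟨a, ha, rfl⟩ := hh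
    rw [hD', joinH, List.mem_flatMap] at ha
    obtain ⟨v, hv, ha⟩ := ha
    rw [List.mem_map] at ha
    obtain ⟨h0, h5, rfl⟩ := ha
    have h6 := List.mem_of_mem_take h5
    rw [List.mem_filter] at h6
    refine ⟨(h4 h0 h6.1).1, ?_, ?_⟩
    · simp only [List.length_map]
      exact hJ
    · intro x hx
      simp only [List.mem_map] at hx
      obtain ⟨l, _, rfl⟩ := hx
      rw [hD, List.mem_map] at hv
      obtain ⟨U, _, rfl⟩ := hv
      by_cases hl : l < (digs W Q.length U).length
      · rw [List.getD_eq_getElem?_getD, List.getElem?_eq_getElem hl]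
        exact digs_lt (List.getElem_mem hl)
      · rw [List.getD_eq_getElem?_getD, List.getElem?_eq_none (by omega)]
        exact Nat.two_pow_pos _

theorem sz_prefixes {P : List (List Bool)} {n i : ℕ} (h1 : P.length ≤ n)
    (h2 : ∀ p ∈ P, p.length ≤ i) : sz P ≤ n * (4 * i + 2) + 1 := by
  have h3 := sz_le_length_mul P (4 * i + 1) (fun p hp => by
    have h4 := sz_listBool_le p
    have h5 := h2 p hp
    omega)
  exact h3.trans (Nat.add_le_add_right (Nat.mul_le_mul_right (4 * i + 1 + 1) h1) 1)

theorem sz_bd {R W i : ℕ} {s : St} (hs : Bd R W i s) :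
    sz s ≤ ((R * R + 1) * (4 * i + 2) + 1) +
      (R * ((4 * W + 1) + ((R * R + 1) * (4 * W + 2) + 1) + 1 + 1) + 1) + 1 := by
  obtain ⟨h1, h2, h3, h4⟩ := hs
  have e1 := sz_prefixes h1 h2
  have e2 := sz_le_length_mul s.2 ((4 * W + 1) + ((R * R + 1) * (4 * W + 2) + 1) + 1)
    (fun h hh => by
      obtain ⟨a1, a2, a3⟩ := h4 h hh
      have b1 := sz_nat_le h.1
      have b2 := Nat.size_le.2 a1
      have b3 := sz_list_bound a2 a3
      have b4 : sz h = sz h.1 + sz h.2 + 1 := sz_pair h.1 h.2
      omega)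
  have e3 := Nat.mul_le_mul_right ((4 * W + 1) + ((R * R + 1) * (4 * W + 2) + 1) + 1 + 1) h3
  have e4 : sz s = sz s.1 + sz s.2 + 1 := sz_pair s.1 s.2
  omega

end Pool.Agent.Y597.Shp
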