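import Pool.Agent.Y597.Shp.Sea

/-!
# The search takes polynomial time
-/

set_option autoImplicit false

namespace Pool.Agent.Y597.Shp

open Pool.Agent.NPC Pool.Agent.NPC.Cnt Pool.Agent.W901.NU

variable {α β γ : Type} [TEnc α] [TEnc β] [TEnc γ]

theorem sz_sublist {l l' : List γ} (h : l.Sublist l') : sz l ≤ sz l' := by
  induction h with
  | slnil => exact le_rfl
  | cons a _ ih => rw [sz_list_cons]; omega
  | cons_cons a _ ih => rw [sz_list_cons, sz_list_cons]; omega

theorem poly_eraseIdx {l : α → List γ} {n : α → ℕ} (hl : NPC.Poly l) (hn : NPC.Poly n) :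
    NPC.Poly (fun a => (l a).eraseIdx (n a)) :=
  (NPC.Poly.append (poly_tk hl hn) (poly_dp hl (NPC.Poly.add hn (NPC.Poly.const 1)))).congr
    fun a => (List.eraseIdx_eq_take_drop_succ _ _).symm

theorem poly_push {ixf : β → List ℕ → ℕ} (hix : NPC.Poly (fun p : β × List ℕ => ixf p.1 p.2))
    {r : β → ℕ} (hr : UPoly r) {b : α → β} {h q : α → ℕ} {K : α → List ℕ} (hb : NPC.Poly b)
    (hh : NPC.Poly h) (hK : NPC.Poly K) (hq : NPC.Poly q) :
    NPC.Poly (fun a => push (ixf (b a)) (r (b a)) (h a) (K a) (q a)) := by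
  unfold push
  have h1 : NPC.Poly (fun a => r (b a)) := hr.toPoly.comp hb
  have h2 : NPC.Poly (fun a => K a ++ [q a]) := by fun_prop
  have h3 : NPC.Poly (fun a => (K a ++ [q a]).tail.map (fun x => x * h a)) :=
    NPC.Poly.map (F := fun a x => x * h a) (NPC.Poly.tail h2)
      (NPC.Poly.mul (NPC.Poly.snd NPC.Poly.id) (hh.comp (NPC.Poly.fst NPC.Poly.id)))
  have h4 : NPC.Poly (fun a => ixf (b a) ((K a ++ [q a]).tail.map (fun x => x * h a))) :=
    hix.comp (NPC.Poly.pair hb h3)
  exact NPC.Poly.ite (NPC.Poly.decide_le h1 (NPC.Poly.length h2))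
    (poly_tk (poly_eraseIdx h2 h4) (NPC.Poly.sub h1 (NPC.Poly.const 1))) h2

theorem poly_sweep {ixf : β → List ℕ → ℕ} (hix : NPC.Poly (fun p : β × List ℕ => ixf p.1 p.2))
    {r : β → ℕ} (hr : UPoly r) {b : α → β} {h : α → ℕ} {D : α → List ℕ} (hb : NPC.Poly b)
    (hh : NPC.Poly h) (hD : NPC.Poly D) :
    NPC.Poly (fun a => sweep (ixf (b a)) (r (b a)) (h a) (D a)) := by
  obtain ⟨p, hp⟩ := hD.sz_le
  unfold sweep
  refine NPC.Poly.foldl (l := D) (s := fun _ => [])
    (F := fun a K q => push (ixf (b a)) (r (b a)) (h a) K q) hD (NPC.Poly.const _) ?_ p ?_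
  · exact poly_push hix hr (hb.comp (NPC.Poly.fst NPC.Poly.id)) (hh.comp (NPC.Poly.fst NPC.Poly.id))
      (by fun_prop) (by fun_prop)
  · intro a k _
    refine (sz_sublist (sweep_sublist (ixf (b a)) (r (b a)) (h a) _)).trans ?_
    exact (sz_sublist (List.take_sublist _ _)).trans (hp a)

theorem poly_kids {K : α → List ℕ} (hK : NPC.Poly K) : NPC.Poly (fun a => kids (K a)) := by
  unfold kids
  fun_prop

theorem sz_list_bound {l : List ℕ} {r n : ℕ} (h1 : l.length ≤ r) (h2 : ∀ x ∈ l, x < 2 ^ n) :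
    sz l ≤ r * (4 * n + 2) + 1 := by
  have h3 := sz_le_length_mul l (4 * n + 1) (fun x hx => by
    have h4 := sz_nat_le x
    have h5 := Nat.size_le.2 (h2 x hx)
    omega)
  exact h3.trans (Nat.add_le_add_right (Nat.mul_le_mul_right (4 * n + 1 + 1) h1) 1)

theorem poly_levs {ixf : β → List ℕ → ℕ} (hix : NPC.Poly (fun p : β × List ℕ => ixf p.1 p.2))
    {r B : β → ℕ} (hr : UPoly r) (hB : UPoly B) :
    NPC.Poly (fun b => levs (ixf b) (r b) (B b) (List.range (B b))) := by
  obtain ⟨pr, hpr⟩ := upoly_le_eval hr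
  obtain ⟨pB, hpB⟩ := upoly_le_eval hB
  unfold levs
  refine NPC.Poly.foldl (l := fun b => List.range (B b))
    (s := fun b => sweep (ixf b) (r b) (2 ^ (B b)) [0])
    (F := fun b K l => sweep (ixf b) (r b) (2 ^ (B b - (l + 1))) (kids K)) hB.range ?_ ?_
    (pr * (Polynomial.C 4 * pB + Polynomial.C 2) + Polynomial.C 1) ?_
  · exact poly_sweep hix hr NPC.Poly.id (two_pow_poly hB) (NPC.Poly.const _)
  · have h1 : UPoly (fun p : β × List ℕ × ℕ => B p.1) := hB.comp (NPC.Poly.fst NPC.Poly.id)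
    have h2 : UPoly (fun p : β × List ℕ × ℕ => B p.1 - (p.2.2 + 1)) :=
      UPoly.of_le (NPC.Poly.sub h1.toPoly (by fun_prop)) h1 fun _ => Nat.sub_le _ _
    exact poly_sweep hix hr (NPC.Poly.fst NPC.Poly.id) (two_pow_poly h2)
      (poly_kids (by fun_prop))
  · intro b k hk
    rw [List.length_range] at hk
    rw [List.take_range, min_eq_left hk]
    obtain ⟨h1, h2⟩ := levs_bound (ixf b) (r b) (B b) k
    have h3 : sz (levs (ixf b) (r b) (B b) (List.range k)) ≤
        pr.eval (sz b) * (4 * pB.eval (sz b) + 2) + 1 := by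
      refine sz_list_bound (h1.trans ((Nat.sub_le _ _).trans (hpr b))) fun x hx => ?_
      exact (h2 x hx).trans_le (Nat.pow_le_pow_right (by norm_num) (hk.trans (hpB b)))
    simp only [Polynomial.eval_add, Polynomial.eval_mul, Polynomial.eval_C]
    exact h3

/-! ### The queries -/

/-- the sum of all entries -/
def tot (V : List (List ℕ)) : ℕ := (V.map (fun v => v.sum)).sum

theorem getD_le_sum (i : ℕ) : ∀ v : List ℕ, v.getD i 0 ≤ v.sum := by
  induction i with
  | zero =>
    intro v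
    cases v with
    | nil => simp
    | cons a v => simp
  | succ i ih =>
    intro v
    cases v with
    | nil => simp
    | cons a v =>
      rw [List.getD_cons_succ, List.sum_cons]
      exact (ih v).trans (Nat.le_add_left _ _)

theorem le_tot (i : ℕ) : ∀ V : List (List ℕ), (V.map (fun v => v.getD i 0)).sum ≤ tot V
  | [] => by simp [tot]
  | v :: V => by
    have ih := le_tot i V
    unfold tot at ih ⊢
    rw [List.map_cons, List.map_cons, List.sum_cons, List.sum_cons]
    exact Nat.add_le_add (getD_le_sum i v) ih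

/-- the formulas of a query -/
def qy (F : β × (List Unit × List Unit) × List ℕ × List ℕ × ℕ → CNF ℕ) (b : β) (B k : ℕ)
    (V : List (List ℕ)) (c : List ℕ) : List (CNF ℕ) :=
  (List.range (V.headD []).length).map (fun i => F (b, (List.replicate B (), List.replicate k ()),
    c, V.map (fun v => v.getD i 0), tot V))

/-- the answer of the algorithm `g` -/
def ans (g : List Bool → List Bool) (k : ℕ) (Φ : List (CNF ℕ)) : ℕ :=
  valB (g (bits (List.replicate k (), Φ)))

theorem poly_qy {F : β × (List Unit × List Unit) × List ℕ × List ℕ × ℕ → CNF ℕ} (hF : NPC.Poly F)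
    {b : α → β} {B k : α → ℕ} {V : α → List (List ℕ)} {c : α → List ℕ} (hb : NPC.Poly b)
    (hB : UPoly B) (hk : UPoly k) (hV : NPC.Poly V) (hc : NPC.Poly c) :
    NPC.Poly (fun a => qy F (b a) (B a) (k a) (V a) (c a)) := by
  unfold qy
  have e1 : UPoly (fun a => ((V a).headD []).length) :=
    UPoly.length ((NPC.Poly.optGetD (NPC.Poly.head? hV) (NPC.Poly.const [])).congr fun a => by
      cases V a <;> rfl)
  refine NPC.Poly.map (l := fun a => List.range ((V a).headD []).length)
    (F := fun a i => F (b a, (List.replicate (B a) (), List.replicate (k a) ()),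
    c a, (V a).map (fun v => v.getD i 0), tot (V a))) e1.range (hF.comp ?_)
  have f2 : NPC.Poly (fun p : α × ℕ => p.1) := by fun_prop
  have hV2 : NPC.Poly (fun p : α × ℕ => V p.1) := hV.comp f2
  have e2 : NPC.Poly (fun p : α × ℕ => (V p.1).map (fun v => v.getD p.2 0)) :=
    NPC.Poly.map (F := fun p v => v.getD p.2 0) hV2 (NPC.Poly.getD (by fun_prop) (by fun_prop)
      (NPC.Poly.const 0))
  have e3 : NPC.Poly (fun p : α × ℕ => tot (V p.1)) := by
    unfold tot
    exact NPC.Poly.sum (NPC.Poly.map (F := fun _ v => v.sum) hV2 (by fun_prop))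
  have hB2 : NPC.Poly (fun p : α × ℕ => List.replicate (B p.1) ()) := hB.comp f2
  have hk2 : NPC.Poly (fun p : α × ℕ => List.replicate (k p.1) ()) := hk.comp f2
  have hb2 : NPC.Poly (fun p : α × ℕ => b p.1) := hb.comp f2
  have hc2 : NPC.Poly (fun p : α × ℕ => c p.1) := hc.comp f2
  exact NPC.Poly.pair hb2 (NPC.Poly.pair (NPC.Poly.pair hB2 hk2) (NPC.Poly.pair hc2
    (NPC.Poly.pair e2 e3)))

theorem poly_ans {g : List Bool → List Bool} (hg : PolyTime g) {k : α → ℕ} {Φ : α → List (CNF ℕ)}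
    (hk : UPoly k) (hΦ : NPC.Poly Φ) : NPC.Poly (fun a => ans g (k a) (Φ a)) := by
  unfold ans
  have hk' : NPC.Poly (fun a => List.replicate (k a) ()) := hk
  have hg' : NPC.Poly g := PIso.poly_iff.2 hg
  exact NPC.Poly.valBits (hg'.comp (poly_bits.comp (NPC.Poly.pair hk' hΦ)))

end Pool.Agent.Y597.Shp
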