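import Pool.Agent.Y597.Shp.Qry

/-!
# The simulating functions are in `#P`
-/

set_option autoImplicit false

namespace Pool.Agent.Y597.Shp

open Pool.Agent.NPC Pool.Agent.NPC.Cnt Pool.Agent.W901.NU

variable {α β : Type} [TEnc α] [TEnc β]

theorem upoly_size {n : α → ℕ} (hn : NPC.Poly n) : UPoly (fun a => (n a).size) :=
  (UPoly.length (NPC.Poly.natBits hn)).congr fun a => by
    beta_reduce
    rw [Nat.size_eq_bits_len]

theorem poly_fl {c : α → List ℕ} {T D j : α → ℕ} (hc : NPC.Poly c) (hT : UPoly T) (hD : UPoly D)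
    (hj : NPC.Poly j) : NPC.Poly (fun a => fl (c a) (T a) (D a) (j a)) := by
  unfold fl
  refine NPC.Poly.flatMap (l := fun a => (c a).zipIdx) (F := fun a x =>
    (List.range (T a)).flatMap (fun t =>
      (List.range (D a)).map (fun _ => (x.1, 2 ^ (min t (T a)), decide (x.2 < j a)))))
    (NPC.Poly.zipIdx hc) ?_
  refine NPC.Poly.flatMap (l := fun p : α × (ℕ × ℕ) => List.range (T p.1))
    (F := fun p t => (List.range (D p.1)).map
      (fun _ => (p.2.1, 2 ^ (min t (T p.1)), decide (p.2.2 < j p.1))))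
    (hT.range.comp (NPC.Poly.fst NPC.Poly.id)) ?_
  refine NPC.Poly.map (l := fun p : (α × (ℕ × ℕ)) × ℕ => List.range (D p.1.1))
    (F := fun p _ => (p.1.2.1, 2 ^ (min p.2 (T p.1.1)), decide (p.1.2.2 < j p.1.1)))
    (hD.range.comp (NPC.Poly.fst (NPC.Poly.fst NPC.Poly.id))) ?_
  have e1 : NPC.Poly (fun p : ((α × (ℕ × ℕ)) × ℕ) × ℕ => p.1.1.1) := by fun_prop
  have e2 : UPoly (fun p : ((α × (ℕ × ℕ)) × ℕ) × ℕ => T p.1.1.1) := hT.comp e1
  have e3 : UPoly (fun p : ((α × (ℕ × ℕ)) × ℕ) × ℕ => min p.1.2 (T p.1.1.1)) :=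
    UPoly.of_le (NPC.Poly.min (by fun_prop) e2.toPoly) e2 fun _ => min_le_right _ _
  have e4 := two_pow_poly e3
  have e5 : NPC.Poly (fun p : ((α × (ℕ × ℕ)) × ℕ) × ℕ => j p.1.1.1) := hj.comp e1
  exact NPC.Poly.pair (by fun_prop) (NPC.Poly.pair e4 (NPC.Poly.decide_lt (by fun_prop) e5))

theorem poly_fB : NPC.Poly fB := by
  unfold fB
  exact NPC.Poly.add (by fun_prop) (NPC.Poly.ite (by fun_prop) (NPC.Poly.const 0) (by fun_prop))

theorem cnt_fA {U : α → ℕ} (hU : CountP U) {g : α → ℕ × ℕ × Bool} (hg : NPC.Poly g) :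
    CountP (fun a => fA (U a) (g a)) := by
  unfold fA
  refine CountP.add (CountP.mul (CountP.const 2) hU) (CountP.ofPoly ?_)
  exact NPC.Poly.ite (by fun_prop) (by fun_prop) (NPC.Poly.const 0)

theorem cnt_G0 {U B k S : α → ℕ} {c vs : α → List ℕ} (hU : CountP U) (hB : UPoly B)
    (hk : UPoly k) (hc : NPC.Poly c) (hv : NPC.Poly vs) (hS : NPC.Poly S) :
    CountP (fun a => G0 (U a) (B a) (k a) (c a) (vs a) (S a)) := by
  unfold G0
  have hD : UPoly (fun a => 2 * (k a + (S a).size)) :=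
    UPoly.mul (UPoly.const 2) (UPoly.add hk (upoly_size hS))
  have hT : UPoly (fun a => B a + 1) := UPoly.add hB (UPoly.const 1)
  have f1 : NPC.Poly (fun p : α × (ℕ × ℕ) => p.1) := by fun_prop
  have f2 : NPC.Poly (fun p : (α × (ℕ × ℕ)) × (ℕ × ℕ × Bool) => p.1.1) := by fun_prop
  have h1 : CountP (fun p : α × (ℕ × ℕ) => par 0
      (fl (c p.1) (B p.1 + 1) (2 * (k p.1 + (S p.1).size)) p.2.2) (fA (U p.1)) fB) :=
    cntPar 0 (l := fun p : α × (ℕ × ℕ) =>
        fl (c p.1) (B p.1 + 1) (2 * (k p.1 + (S p.1).size)) p.2.2)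
      (A := fun p => fA (U p.1.1) p.2) (B := fun p => fB p.2)
      (poly_fl (hc.comp f1) (hT.comp f1) (hD.comp f1) (by fun_prop))
      (cnt_fA (hU.comp f2) (by fun_prop)) (CountP.ofPoly (poly_fB.comp (by fun_prop)))
  have h2 : CountP (fun p : α × (ℕ × ℕ) => p.2.1 * (2 * par 0
      (fl (c p.1) (B p.1 + 1) (2 * (k p.1 + (S p.1).size)) p.2.2) (fA (U p.1)) fB)) :=
    CountP.mul (CountP.ofPoly (by fun_prop)) (CountP.mul (CountP.const 2) h1)
  have h3 := sumL (l := fun a => (vs a).zipIdx) (NPC.Poly.zipIdx hv) h2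
  have f3 : NPC.Poly (fun p : α × (ℕ × ℕ × Bool) => p.1) := by fun_prop
  have h4 : CountP (fun a => Qn (c a) (B a + 1) (2 * (k a + (S a).size)) (U a)) := by
    unfold Qn
    exact prodL (l := fun a => fl (c a) (B a + 1) (2 * (k a + (S a).size)) 0)
      (F := fun p => fA (U p.1) p.2 + fB p.2) (poly_fl hc hT hD (NPC.Poly.const 0))
      (CountP.add (cnt_fA (hU.comp f3) (by fun_prop))
        (CountP.ofPoly (poly_fB.comp (by fun_prop))))
  exact CountP.mul (CountP.ofPoly (two_pow_poly hk)) (CountP.add h3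
    (CountP.mul (CountP.ofPoly (by fun_prop)) h4))

/-- **The formulas**: for a `#P` function `U` there is a polynomial-time function that computes,
from an input, the bound `2 ^ B`, the precision `k`, the cuts, and one coordinate of all shapes, a
formula with the simulated number of models. -/
theorem exists_form {U : β → ℕ} [Cnt.TDec β] (hU : CountP U) :
    ∃ F : β × (List Unit × List Unit) × List ℕ × List ℕ × ℕ → CNF ℕ, NPC.Poly F ∧
      ∀ b lB lk c vs S, satCount (F (b, (lB, lk), c, vs, S)) =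
        G0 (U b) lB.length lk.length c vs S := by
  obtain ⟨F, hF, h⟩ := formOf (cnt_G0 (α := β × (List Unit × List Unit) × List ℕ × List ℕ × ℕ)
    (U := fun x => U x.1) (B := fun x => x.2.1.1.length) (k := fun x => x.2.1.2.length)
    (c := fun x => x.2.2.1) (vs := fun x => x.2.2.2.1) (S := fun x => x.2.2.2.2)
    (hU.comp (by fun_prop)) (UPoly.length (by fun_prop)) (UPoly.length (by fun_prop))
    (by fun_prop) (by fun_prop) (by fun_prop))
  exact ⟨F, hF, fun b lB lk c vs S => h _⟩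

end Pool.Agent.Y597.Shp
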