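import Pool.Agent.Y597.Shp.Cnt
import Pool.Agent.Y597.Shp.Dom

/-!
# The `#P` functions that simulate a shape chosen by a hidden number
-/

set_option autoImplicit false

namespace Pool.Agent.Y597.Shp

open Pool.Agent.NPC Pool.Agent.NPC.Cnt

/-- The vector `N` has the shape of `v` up to a relative error `2 ^ (-k)`. -/
def Near (k : ℕ) (v N : List ℕ) : Prop :=
  ∃ a b : ℕ, 2 ^ k ≤ a ∧ ∀ i < N.length, a * v.getD i 0 + b ≤ N.getD i 0 ∧
    2 ^ k * (N.getD i 0 - (a * v.getD i 0 + b)) ≤ a

/-! ### The list of factors -/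

/-- the factors: a cut, a power of two and a sign -/
def fl (c : List ℕ) (T D j : ℕ) : List (ℕ × ℕ × Bool) :=
  c.zipIdx.flatMap (fun x => (List.range T).flatMap (fun t =>
    (List.range D).map (fun _ => (x.1, 2 ^ (min t T), decide (x.2 < j)))))

def fA (u : ℕ) (y : ℕ × ℕ × Bool) : ℕ := 2 * u + if y.2.2 = true then y.2.1 else 0

def fB (y : ℕ × ℕ × Bool) : ℕ := (2 * y.1 - 1) + if y.2.2 = true then 0 else y.2.1

theorem prod_flatMap {β γ : Type} {M : Type} [CommMonoid M] (g : β → List γ) (f : γ → M) :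
    ∀ l : List β, ((l.flatMap g).map f).prod = (l.map (fun x => ((g x).map f).prod)).prod
  | [] => by simp
  | x :: l => by
    rw [List.flatMap_cons, List.map_append, List.prod_append, prod_flatMap g f l, List.map_cons,
      List.prod_cons]

theorem prod_range {M : Type} [CommMonoid M] (f : ℕ → M) : ∀ n : ℕ,
    ((List.range n).map f).prod = ∏ i ∈ Finset.range n, f i
  | 0 => by simp
  | n + 1 => by
    rw [List.range_succ, List.map_append, List.prod_append, prod_range f n,
      Finset.prod_range_succ]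
    simp

theorem prod_fl {M : Type} [CommMonoid M] (c : List ℕ) (T D j : ℕ) (f : ℕ × ℕ × Bool → M) :
    ((fl c T D j).map f).prod = (c.zipIdx.map (fun x =>
      ∏ t ∈ Finset.range T, (f (x.1, 2 ^ t, decide (x.2 < j))) ^ D)).prod := by
  unfold fl
  rw [prod_flatMap]
  congr 1
  refine List.map_congr_left fun x _ => ?_
  rw [prod_flatMap, prod_range]
  refine Finset.prod_congr rfl fun t ht => ?_
  rw [Finset.mem_range] at ht
  rw [List.map_map, prod_range]
  simp only [Function.comp, Finset.prod_const, Finset.card_range]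
  rw [min_eq_left ht.le]

theorem prod_sub (c : List ℕ) (hc : ∀ x ∈ c, 1 ≤ x) (T E j u : ℕ) :
    ((fl c T (2 * E) j).map (fun y => (fA u y : ℤ) - fB y)).prod = wt T E c u j := by
  rw [prod_fl]
  unfold wt
  congr 1
  refine List.map_congr_left fun x hx => ?_
  have h1 := hc x.1 (List.fst_mem_of_mem_zipIdx hx)
  have h2 : ((2 * x.1 - 1 : ℕ) : ℤ) = 2 * (x.1 : ℤ) - 1 := by omega
  simp only [fA, fB]
  unfold fac
  push_cast
  rw [h2]
  by_cases h : x.2 < j
  · simp only [h, decide_true, if_true]
    unfold WP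
    rw [← Finset.prod_pow]
    refine Finset.prod_congr rfl fun t _ => ?_
    rw [pow_mul]
    congr 1
    ring
  · simp only [h, decide_false, Bool.false_eq_true, if_false]
    unfold WM
    rw [← Finset.prod_pow]
    refine Finset.prod_congr rfl fun t _ => ?_
    rw [pow_mul]
    congr 1
    ring

/-- the common product -/
def Qn (c : List ℕ) (T D u : ℕ) : ℕ := ((fl c T D 0).map (fun y => fA u y + fB y)).prod

theorem prod_add (c : List ℕ) (T D j u : ℕ) :
    ((fl c T D j).map (fun y => (fA u y : ℤ) + fB y)).prod = Qn c T D u := by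
  have h : ∀ j : ℕ, ((fl c T D j).map (fun y => fA u y + fB y)).prod =
      (c.zipIdx.map (fun x => ∏ t ∈ Finset.range T, (2 * u + (2 * x.1 - 1) + 2 ^ t) ^ D)).prod := by
    intro j
    rw [prod_fl]
    congr 1
    refine List.map_congr_left fun x _ => ?_
    refine Finset.prod_congr rfl fun t _ => ?_
    congr 1
    simp only [fA, fB]
    split_ifs <;> ring
  unfold Qn
  rw [h 0, ← h j]
  push_cast
  rw [List.map_map]
  congr 1

/-- the value for the coordinate whose entries in the shapes are `vs` -/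
def G0 (u : ℕ) (B k : ℕ) (c vs : List ℕ) (S : ℕ) : ℕ :=
  2 ^ k * ((vs.zipIdx.map (fun y => y.1 * (2 * par 0 (fl c (B + 1) (2 * (k + S.size)) y.2)
    (fA u) fB))).sum + (S - vs.sum) * Qn c (B + 1) (2 * (k + S.size)) u)

theorem sum_zipIdx (f : ℕ → ℕ → ℤ) (Q : ℤ) : ∀ (vs : List ℕ) (n : ℕ),
    ((vs.zipIdx n).map (fun y => (y.1 : ℤ) * (f y.1 y.2 + Q))).sum =
      ((vs.zipIdx n).map (fun y => (y.1 : ℤ) * f y.1 y.2)).sum + (vs.sum : ℤ) * Q
  | [], n => by simp
  | v :: vs, n => by
    rw [List.zipIdx_cons, List.map_cons, List.map_cons, List.sum_cons, List.sum_cons,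
      sum_zipIdx f Q vs (n + 1), List.sum_cons]
    push_cast
    ring

theorem G0_eq (u B k : ℕ) (c vs : List ℕ) (hc : ∀ x ∈ c, 1 ≤ x) (S : ℕ) (hS : vs.sum ≤ S) :
    (G0 u B k c vs S : ℤ) = 2 ^ k * ((vs.zipIdx.map (fun y =>
      (y.1 : ℤ) * wt (B + 1) (k + S.size) c u y.2)).sum +
        S * Qn c (B + 1) (2 * (k + S.size)) u) := by
  unfold G0
  have h1 : ∀ j, 2 * (par 0 (fl c (B + 1) (2 * (k + S.size)) j) (fA u) fB : ℤ) =
      wt (B + 1) (k + S.size) c u j + Qn c (B + 1) (2 * (k + S.size)) u := by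
    intro j
    rw [two_par, prod_sub c hc, prod_add]
  have h2 : (((vs.zipIdx.map (fun y => y.1 * (2 * par 0 (fl c (B + 1) (2 * (k + S.size)) y.2)
    (fA u) fB))).sum : ℕ) : ℤ) = (vs.zipIdx.map (fun y => (y.1 : ℤ) *
      (wt (B + 1) (k + S.size) c u y.2 + Qn c (B + 1) (2 * (k + S.size)) u))).sum := by
    push_cast
    rw [List.map_map]
    congr 1
    refine List.map_congr_left fun y _ => ?_
    simp only [Function.comp]
    push_cast
    rw [h1]
  rw [Nat.cast_mul, Nat.cast_add, h2,
    sum_zipIdx (fun _ j => wt (B + 1) (k + S.size) c u j)]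
  rw [Nat.cast_mul, Nat.cast_sub hS]
  push_cast
  ring

/-! ### The sum is dominated by one term -/

theorem sum_dom (w : ℕ → ℤ) (K : ℤ) (hK : 0 ≤ K) (js : ℕ) (hw0 : ∀ j, 0 ≤ w j) :
    ∀ (vs : List ℕ) (n : ℕ), (∀ j, n ≤ j → j < n + vs.length → j ≠ js → K * w j ≤ w js) →
    n ≤ js → js < n + vs.length →
      ((vs.getD (js - n) 0 : ℕ) : ℤ) * w js ≤ ((vs.zipIdx n).map (fun y => (y.1 : ℤ) * w y.2)).sum ∧
      K * (((vs.zipIdx n).map (fun y => (y.1 : ℤ) * w y.2)).sum -
        ((vs.getD (js - n) 0 : ℕ) : ℤ) * w js) ≤ (vs.sum : ℤ) * w js := by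
  -- first a version without the index
  have key : ∀ (vs : List ℕ) (n : ℕ), (∀ j, n ≤ j → j < n + vs.length → K * w j ≤ w js) →
      0 ≤ ((vs.zipIdx n).map (fun y => (y.1 : ℤ) * w y.2)).sum ∧
      K * ((vs.zipIdx n).map (fun y => (y.1 : ℤ) * w y.2)).sum ≤ (vs.sum : ℤ) * w js := by
    intro vs
    induction vs with
    | nil => intro n _; simp
    | cons v vs ih =>
      intro n h
      obtain ⟨i1, i2⟩ := ih (n + 1) (fun j h1 h2 => h j (by omega) (by
        rw [List.length_cons]; omega))
      have h0 := h n le_rfl (by rw [List.length_cons]; omega)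
      rw [List.zipIdx_cons, List.map_cons, List.sum_cons, List.sum_cons]
      have hv : (0 : ℤ) ≤ v := by positivity
      refine ⟨add_nonneg (mul_nonneg hv (hw0 n)) i1, ?_⟩
      rw [Nat.cast_add]
      have := mul_le_mul_of_nonneg_left h0 hv
      nlinarith
  intro vs
  induction vs with
  | nil => intro n _ h1 h2; simp at h2; omega
  | cons v vs ih =>
    intro n h h1 h2
    rw [List.zipIdx_cons, List.map_cons, List.sum_cons, List.sum_cons]
    have hv : (0 : ℤ) ≤ v := by positivity
    by_cases e : js = n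
    · subst e
      obtain ⟨k1, k2⟩ := key vs (js + 1) (fun j h3 h4 => h j (by omega) (by
        rw [List.length_cons]; omega) (by omega))
      rw [Nat.sub_self, List.getD_cons_zero, Nat.cast_add]
      constructor
      · nlinarith
      · have h5 := mul_nonneg hv (hw0 js)
        nlinarith
    · obtain ⟨i1, i2⟩ := ih (n + 1) (fun j h3 h4 h5 => h j (by omega) (by
        rw [List.length_cons]; omega) h5) (by omega) (by rw [List.length_cons] at h2; omega)
      have h0 := h n le_rfl (by rw [List.length_cons]; omega) (by omega)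
      have e2 : js - n = (js - (n + 1)) + 1 := by omega
      rw [e2, List.getD_cons_succ, Nat.cast_add]
      have h6 := mul_nonneg hv (hw0 n)
      constructor
      · nlinarith
      · have := mul_le_mul_of_nonneg_left h0 hv
        nlinarith

theorem two_pow_le_nine (k S : ℕ) : (2 : ℤ) ^ k * S ≤ 9 ^ (k + S.size) := by
  have h1 : S < 2 ^ S.size := Nat.lt_size_self S
  have h2 : (S : ℤ) ≤ 2 ^ S.size := by exact_mod_cast h1.le
  calc (2 : ℤ) ^ k * S ≤ 2 ^ k * 2 ^ S.size := by
        exact mul_le_mul_of_nonneg_left h2 (by positivity)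
    _ = 2 ^ (k + S.size) := by rw [pow_add]
    _ ≤ 9 ^ (k + S.size) := pow_le_pow_left₀ (by norm_num) (by norm_num) _

/-- **The simulated vector has the shape of the segment.** -/
theorem near_G0 {u B k js : ℕ} {c : List ℕ} {V : List (List ℕ)} {m : ℕ}
    (hu : u < 2 ^ B) (hc : ∀ x ∈ c, x ≤ 2 ^ B ∧ 1 ≤ x) (hlen : c.length + 1 = V.length)
    (hseg : Seg c u js) (hjs : js < V.length) (S : ℕ)
    (hS : ∀ i < m, (V.map (fun v => v.getD i 0)).sum ≤ S) :
    Near k (V.getD js []) ((List.range m).map (fun i =>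
      G0 u B k c (V.map (fun v => v.getD i 0)) S)) := by
  set E := k + S.size with hE
  have hw1 := wt_one (E := E) hseg hu hc
  have hdom : ∀ j, j < V.length → j ≠ js →
      9 ^ E * wt (B + 1) E c u j ≤ wt (B + 1) E c u js := fun j hj hne =>
    wt_dom hseg hu hc (by omega) (by omega) hne
  set w : ℕ → ℤ := fun j => wt (B + 1) E c u j with hw
  set Q : ℕ := Qn c (B + 1) (2 * E) u with hQ
  have hwjs : w js = ((w js).toNat : ℤ) := by
    rw [Int.toNat_of_nonneg]
    exact wt_nonneg _ _ _ _ _
  refine ⟨2 ^ k * (w js).toNat, 2 ^ k * (S * Q), ?_, ?_⟩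
  · have h1 : 1 ≤ (w js).toNat := by
      have : 1 ≤ w js := hw1
      omega
    exact Nat.le_mul_of_pos_right _ h1
  · intro i hi
    rw [List.length_map, List.length_range] at hi
    have hN : ((List.range m).map (fun i => G0 u B k c (V.map (fun v => v.getD i 0)) S)).getD i 0 =
        G0 u B k c (V.map (fun v => v.getD i 0)) S := by
      rw [List.getD_eq_getElem?_getD, List.getElem?_map, List.getElem?_range hi]
      rfl
    rw [hN]
    have hG := G0_eq u B k c (V.map (fun v => v.getD i 0)) (fun x hx => (hc x hx).2) S (hS i hi)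
    obtain ⟨s1, s2⟩ := sum_dom w (9 ^ E) (by positivity) js (fun j => wt_nonneg _ _ _ _ _)
      (V.map (fun v => v.getD i 0)) 0 (fun j _ h2 h3 => hdom j (by simpa using h2) h3)
      (Nat.zero_le _) (by simpa using hjs)
    have hv : (V.map (fun v => v.getD i 0)).getD (js - 0) 0 = (V.getD js []).getD i 0 := by
      rw [Nat.sub_zero, List.getD_eq_getElem?_getD, List.getElem?_map,
        List.getElem?_eq_getElem hjs, List.getD_eq_getElem?_getD (l := V),
        List.getElem?_eq_getElem hjs]
      rfl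
    rw [hv] at s1 s2
    set v := (V.getD js []).getD i 0 with hvdef
    set Sg := (((V.map (fun v => v.getD i 0)).zipIdx.map (fun y => (y.1 : ℤ) * w y.2)).sum) with hSg
    have hle : (((V.map (fun v => v.getD i 0)).sum : ℕ) : ℤ) ≤ S := Nat.cast_le.2 (hS i hi)
    have h2k : (0 : ℤ) < 2 ^ k := by positivity
    have h9 := two_pow_le_nine k S
    have hwp : 1 ≤ w js := hw1
    have hG' : (G0 u B k c (V.map (fun v => v.getD i 0)) S : ℤ) = 2 ^ k * (Sg + S * Q) := hG
    have hlow : ((2 ^ k * (w js).toNat * v + 2 ^ k * (S * Q) : ℕ) : ℤ) ≤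
        (G0 u B k c (V.map (fun v => v.getD i 0)) S : ℤ) := by
      rw [hG']
      push_cast
      rw [← hwjs]
      nlinarith
    constructor
    · exact_mod_cast hlow
    · have hlow' : 2 ^ k * (w js).toNat * v + 2 ^ k * (S * Q) ≤
        G0 u B k c (V.map (fun v => v.getD i 0)) S := by exact_mod_cast hlow
      have hz : (((2 ^ k * (G0 u B k c (V.map (fun v => v.getD i 0)) S -
          (2 ^ k * (w js).toNat * v + 2 ^ k * (S * Q))) : ℕ)) : ℤ) ≤
          ((2 ^ k * (w js).toNat : ℕ) : ℤ) := by
        rw [Nat.cast_mul, Nat.cast_sub hlow', hG']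
        push_cast
        rw [← hwjs]
        have e1 : (2 : ℤ) ^ k * (2 ^ k * (Sg + S * Q) - (2 ^ k * w js * v + 2 ^ k * (S * Q))) =
            2 ^ k * (2 ^ k * (Sg - v * w js)) := by ring
        rw [e1]
        refine mul_le_mul_of_nonneg_left ?_ h2k.le
        -- `2 ^ k * x ≤ w js` from `9 ^ E * x ≤ S * w js` and `2 ^ k * S ≤ 9 ^ E`
        have s3 : 9 ^ E * (Sg - v * w js) ≤ S * w js :=
          s2.trans (mul_le_mul_of_nonneg_right hle (by omega))
        have s4 : 0 ≤ Sg - v * w js := by linarith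
        by_cases hS0 : S = 0
        · subst hS0
          have s5 : 9 ^ E * (Sg - v * w js) ≤ 0 := by simpa using s3
          have s6 : (0 : ℤ) < 9 ^ E := by positivity
          have s7 : Sg - v * w js ≤ 0 := by
            by_contra h
            push Not at h
            have := mul_pos s6 h
            omega
          have s8 : Sg - v * w js = 0 := le_antisymm s7 s4
          rw [s8, mul_zero]
          omega
        · have hSp : (0 : ℤ) < S := by positivity
          -- multiply by S
          have s5 : (2 ^ k * (Sg - v * w js)) * S ≤ w js * S := by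
            calc (2 ^ k * (Sg - v * w js)) * S = (2 ^ k * S) * (Sg - v * w js) := by ring
              _ ≤ 9 ^ E * (Sg - v * w js) := mul_le_mul_of_nonneg_right h9 s4
              _ ≤ S * w js := s3
              _ = w js * S := by ring
          exact le_of_mul_le_mul_right s5 hSp
      exact_mod_cast hz

end Pool.Agent.Y597.Shp
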