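import Pool.Agent.Y597.Shp.Thm

/-!
# Closed sets of shapes; naming a formula which is not the richest one
-/

set_option autoImplicit false

namespace Pool.Agent.Y597.Shp

open Pool.Agent.NPC Pool.Agent.NPC.Cnt Pool.Agent.W901.NU

/-- unary to typed -/
theorem poly_unary {β : Type} [TEnc β] [Cnt.TDec β] {V : ℕ → β} {h : List Bool → List Bool}
    (hh : PolyTime h) (hV : ∀ k, h (List.replicate k true) = bits (V k)) :
    NPC.Poly (fun l : List Unit => V l.length) := by
  have h1 : NPC.Poly (fun l : List Unit => l.map (fun _ => true)) := by fun_prop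
  have h2 : NPC.Poly h := PIso.poly_iff.2 hh
  have h3 : NPC.Poly (fun l : List Unit => (decode (h (l.map (fun _ => true))) : Option β)) :=
    poly_decode.comp (h2.comp h1)
  refine (NPC.Poly.optGetD h3 (NPC.Poly.const (V 0))).congr fun l => ?_
  have e : l.map (fun _ => true) = List.replicate l.length true := by
    rw [List.map_const']
  rw [e, hV]
  have : decode (bits (V l.length)) = some (V l.length) := decode_eq_some.2 rfl
  rw [this]
  rfl

/-- forget the unary parameter -/
def drp (g : List Bool → List Bool) (y : List Bool) : List Bool :=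
  g (bits (((decode y : Option (List Unit × List (CNF ℕ))).getD ([], [])).2))

theorem drp_bits (g : List Bool → List Bool) (k : ℕ) (Φ : List (CNF ℕ)) :
    drp g (bits (List.replicate k (), Φ)) = g (bits Φ) := by
  unfold drp
  have : decode (bits (List.replicate k (), Φ)) = some (List.replicate k (), Φ) :=
    decode_eq_some.2 rfl
  rw [this]
  rfl

theorem drp_poly {g : List Bool → List Bool} (hg : PolyTime g) : PolyTime (drp g) := by
  refine PIso.poly_iff.1 ?_
  have h1 : NPC.Poly (fun y : List Bool =>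
      (decode y : Option (List Unit × List (CNF ℕ))).getD ([], [])) :=
    NPC.Poly.optGetD poly_decode (NPC.Poly.const _)
  exact (PIso.poly_iff.2 hg).comp (poly_bits.comp (NPC.Poly.snd h1))

/-- a list of numbers as a real vector -/
def vec (m : ℕ) (N : List ℕ) (i : Fin m) : ℝ := ((N.getD i 0 : ℕ) : ℝ)

/-- invariance under the maps `y ↦ a y + b` with `a > 0` -/
def Inv' {m : ℕ} (S : Set (Fin m → ℝ)) : Prop :=
  ∀ (a b : ℝ), 0 < a → ∀ y ∈ S, (fun i => a * y i + b) ∈ S

theorem exists_shape {m : ℕ} {S : Set (Fin m → ℝ)} (hcl : IsClosed S) (hinv : Inv' S)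
    (hne : S ≠ Set.univ) : ∃ (v : List ℕ) (k0 : ℕ), v.length = m ∧ ∀ k ≥ k0, ∀ N : List ℕ,
      N.length = m → Near k v N → vec m N ∉ S := by
  obtain ⟨y, hy⟩ := (Set.ne_univ_iff_exists_notMem S).1 hne
  obtain ⟨ε, hε, hball⟩ := Metric.isOpen_iff.1 hcl.isOpen_compl y hy
  -- a common denominator
  obtain ⟨n, hn⟩ := exists_nat_gt (2 / ε)
  have hn0 : (0 : ℝ) < n := lt_trans (by positivity) hn
  have hnε : 2 < n * ε := by
    rw [div_lt_iff₀ hε] at hn
    exact hn
  -- the integer vector and the shift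
  set z : Fin m → ℤ := fun i => ⌊(n : ℝ) * y i⌋ with hz
  set s : ℕ := ∑ i, (z i).natAbs with hs
  have hzs : ∀ i, 0 ≤ z i + s := by
    intro i
    have h1 : (z i).natAbs ≤ s := Finset.single_le_sum (f := fun i => (z i).natAbs)
      (fun _ _ => Nat.zero_le _) (Finset.mem_univ i)
    omega
  set w : Fin m → ℕ := fun i => (z i + s).toNat with hw
  have hwz : ∀ i, ((w i : ℕ) : ℝ) = (z i : ℝ) + s := by
    intro i
    have h1 : ((w i : ℕ) : ℤ) = z i + s := Int.toNat_of_nonneg (hzs i)
    exact_mod_cast h1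
  obtain ⟨k0, hk0⟩ := exists_nat_gt (2 / (n * ε))
  refine ⟨List.ofFn w, k0 + 2, by simp, fun k hk N hN hnear hmem => ?_⟩
  obtain ⟨a, b, ha, hab⟩ := hnear
  have ha0 : (0 : ℝ) < a := by
    have : 0 < a := lt_of_lt_of_le (by positivity) ha
    exact_mod_cast this
  -- the normalized vector
  have hmem' := hinv (1 / (a * n)) (-((b + a * s) / (a * n))) (by positivity) _ hmem
  have hnot : (fun i => 1 / (a * n) * vec m N i + -((b + a * s) / (a * n))) ∈ Sᶜ := hball (by
    rw [Metric.mem_ball, dist_pi_lt_iff hε]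
    intro i
    obtain ⟨h1, h2⟩ := hab i (by omega)
    have hgv : (List.ofFn w).getD (i : ℕ) 0 = w i := by
      rw [List.getD_eq_getElem?_getD, List.getElem?_ofFn]
      simp
    rw [hgv] at h1 h2
    set Ni := N.getD (i : ℕ) 0 with hNi
    have h3 : ((a * w i + b : ℕ) : ℝ) ≤ Ni := by exact_mod_cast h1
    have h4 : (2 : ℝ) ^ k * ((Ni : ℝ) - ((a * w i + b : ℕ) : ℝ)) ≤ a := by
      have h5 : ((2 ^ k * (Ni - (a * w i + b)) : ℕ) : ℝ) ≤ a := by exact_mod_cast h2
      rw [Nat.cast_mul, Nat.cast_sub h1] at h5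
      push_cast at h5 ⊢
      exact h5
    push_cast at h3 h4
    rw [hwz i] at h3 h4
    -- the error
    set e : ℝ := (Ni : ℝ) - (a * ((z i : ℝ) + s) + b) with he
    have he0 : 0 ≤ e := by linarith
    have he1 : e * 2 ^ k ≤ a := by linarith
    have hval : 1 / (a * n) * vec m N i + -((b + a * s) / (a * n)) =
        (z i : ℝ) / n + e / (a * n) := by
      unfold vec
      rw [← hNi]
      have : (Ni : ℝ) = e + (a * ((z i : ℝ) + s) + b) := by rw [he]; ring
      rw [this]
      field_simp
      ring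
    rw [hval, Real.dist_eq]
    have hz1 : (z i : ℝ) ≤ n * y i := Int.floor_le _
    have hz2 : (n : ℝ) * y i < z i + 1 := Int.lt_floor_add_one _
    have h6 : e / (a * n) ≤ ε / 2 := by
      -- `e / a ≤ 2 ^ (-k) ≤ 1`
      have h7 : e ≤ a * (1 / 2 ^ k) := by
        rw [mul_one_div, le_div_iff₀ (by positivity)]
        exact he1
      have h8 : (k : ℝ) < 2 ^ k := by exact_mod_cast Nat.lt_two_pow_self
      have h9 : 2 / (n * ε) < 2 ^ k := by
        have h10 : (k0 : ℝ) ≤ k := by exact_mod_cast (by omega : k0 ≤ k)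
        linarith
      have h11 : 1 / 2 ^ k ≤ n * ε / 2 := by
        rw [div_le_div_iff₀ (by positivity) (by norm_num)]
        rw [div_lt_iff₀ (by positivity)] at h9
        linarith
      rw [div_le_iff₀ (by positivity)]
      calc e ≤ a * (1 / 2 ^ k) := h7
        _ ≤ a * (n * ε / 2) := mul_le_mul_of_nonneg_left h11 ha0.le
        _ = ε / 2 * (a * n) := by ring
    have h12 : 0 ≤ e / (a * n) := by positivity
    have h13 : (z i : ℝ) / n ≤ y i := by
      rw [div_le_iff₀ hn0]
      linarith
    have h14 : y i - (z i : ℝ) / n < ε / 2 := by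
      have h15 : y i - (z i : ℝ) / n < 1 / n := by
        rw [sub_lt_iff_lt_add, ← add_div, lt_div_iff₀ hn0]
        linarith
      refine h15.trans ?_
      rw [div_lt_div_iff₀ hn0 (by norm_num)]
      linarith
    rw [abs_lt]
    constructor <;> linarith)
  exact hnot hmem'

/-- **A Rice-type theorem for the shapes of vectors of counts.** -/
theorem rice {m r : ℕ} (S : Fin r → Set (Fin m → ℝ)) (hcl : ∀ j, IsClosed (S j))
    (hinv : ∀ j, Inv' (S j)) {g : List Bool → List Bool} (hg : PolyTime g)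
    (hsol : ∀ Φ : List (CNF ℕ), Φ.length = m → ∃ j : Fin r, g (bits Φ) = (j : ℕ).bits ∧
      vec m (Φ.map satCount) ∈ S j) :
    (∃ j, S j = Set.univ) ∨ ∀ f, SharpP f → FP f := by
  by_cases hex : ∃ j, S j = Set.univ
  · exact Or.inl hex
  right
  push Not at hex
  choose v k0 hvl hv using fun j => exists_shape (hcl j) (hinv j) (hex j)
  have hr : 0 < r := by
    obtain ⟨j, _⟩ := hsol (List.replicate m []) (by simp)
    exact Fin.pos j
  obtain ⟨q, hq⟩ := shapes_hard (V := fun _ => List.ofFn v) (m := fun _ => m)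
    (NPC.Poly.const _) (fun _ h => by
      have := congrArg List.length h
      simp at this
      omega) (fun _ w hw => by
      rw [List.mem_ofFn] at hw
      obtain ⟨j, rfl⟩ := hw
      exact hvl j)
  refine hq (drp g) (drp_poly hg) (∑ j, k0 j) fun k hk Φ hΦ _ => ?_
  obtain ⟨j, hj, hmem⟩ := hsol Φ hΦ
  refine ⟨j, by simp, ?_, fun hnear => ?_⟩
  · rw [drp_bits, hj]
  · have e : (List.ofFn v).getD (j : ℕ) [] = v j := by
      rw [List.getD_eq_getElem?_getD, List.getElem?_ofFn]
      simp
    rw [e] at hnear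
    have hk1 : k0 j ≤ k := (Finset.single_le_sum (f := k0) (fun _ _ => Nat.zero_le _)
      (Finset.mem_univ j)).trans hk
    exact hv j k hk1 _ (by rw [List.length_map, hΦ]) hnear hmem

/-! ### Upper bounds from `#P ⊆ FP` -/

theorem poly_satCount (h : ∀ f, SharpP f → FP f) : NPC.Poly (fun φ : CNF ℕ => satCount φ) := by
  have h1 := h _ (countP_satCount).sharpP
  have h2 : NPC.Poly (fun x : List Bool => (strFn (fun φ : CNF ℕ => satCount φ) x).bits) :=
    PIso.poly_iff.2 h1
  exact (NPC.Poly.of_natBits (h2.comp (poly_bits (α := CNF ℕ)))).congr fun φ => strFn_bits _ φ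

theorem poly_counts (h : ∀ f, SharpP f → FP f) :
    NPC.Poly (fun Φ : List (CNF ℕ) => Φ.map satCount) :=
  NPC.Poly.map (F := fun _ φ => satCount φ) NPC.Poly.id
    ((poly_satCount h).comp (NPC.Poly.snd NPC.Poly.id))

/-- from a typed function to a function on strings -/
theorem polyTime_of {α : Type} [TEnc α] [Cnt.TDec α] {F : α → List Bool}
    (hF : NPC.Poly F) : ∃ g, PolyTime g ∧ ∀ a, g (bits a) = F a := by
  have h1 : NPC.Poly (fun y : List Bool => ((decode y : Option α).map F).getD []) :=
    NPC.Poly.optGetD (NPC.Poly.optMap_fp (h := fun _ a => F a) poly_decode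
      (hF.comp (NPC.Poly.snd NPC.Poly.id))) (NPC.Poly.const [])
  refine ⟨_, PIso.poly_iff.1 h1, fun a => ?_⟩
  have : decode (bits a) = some a := decode_eq_some.2 rfl
  rw [this]
  rfl

theorem solvable_of {m r : ℕ} (S : Fin r → Set (Fin m → ℝ)) (hcov : ∀ y, ∃ j, y ∈ S j)
    (hdec : ∀ j, ∃ h : List Bool → List Bool, PolyTime h ∧ ∀ N : List ℕ, N.length = m →
      (h (bits N) = [true] ↔ (fun i : Fin m => ((N.getD i 0 : ℕ) : ℝ)) ∈ S j))
    (hyp : (∃ j, S j = Set.univ) ∨ ∀ f : List Bool → ℕ, SharpP f → FP f) :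
    ∃ g : List Bool → List Bool, PolyTime g ∧ ∀ Φ : List (CNF ℕ), Φ.length = m →
      ∃ j : Fin r, g (bits Φ) = (j : ℕ).bits ∧ vec m (Φ.map satCount) ∈ S j := by
  rcases hyp with ⟨j, hj⟩ | hyp
  · obtain ⟨g, hg, h⟩ := polyTime_of (α := List (CNF ℕ)) (F := fun _ => (j : ℕ).bits)
      (NPC.Poly.const _)
    exact ⟨g, hg, fun Φ _ => ⟨j, h Φ, by rw [hj]; trivial⟩⟩
  · choose h hh hS using hdec
    -- the first index that works, by recursion on the number of the sets
    have key : ∀ n ≤ r, ∃ F : List ℕ → ℕ, NPC.Poly F ∧ ∀ N : List ℕ, N.length = m →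
        (∃ j : Fin r, (j : ℕ) < n ∧ vec m N ∈ S j) →
        ∃ j : Fin r, F N = (j : ℕ) ∧ vec m N ∈ S j := by
      intro n
      induction n with
      | zero => exact fun _ => ⟨fun _ => 0, NPC.Poly.const _, fun N _ ⟨j, hj, _⟩ => by omega⟩
      | succ n ih =>
        intro hn
        obtain ⟨F, hF, hFs⟩ := ih (by omega)
        set jn : Fin r := ⟨n, by omega⟩ with hjn
        have h1 : NPC.Poly (fun N : List ℕ => decide (h jn (bits N) = [true])) :=
          NPC.Poly.decide_eq ((PIso.poly_iff.2 (hh jn)).comp poly_bits) (NPC.Poly.const _)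
        refine ⟨fun N => if h jn (bits N) = [true] then n else F N,
          NPC.Poly.ite h1 (NPC.Poly.const n) hF, fun N hN ⟨j, hj, hmem⟩ => ?_⟩
        by_cases h2 : h jn (bits N) = [true]
        · refine ⟨jn, ?_, (hS jn N hN).1 h2⟩
          simp only [h2, if_true]
          rfl
        · simp only [h2, if_false]
          refine hFs N hN ⟨j, ?_, hmem⟩
          rcases Nat.lt_or_ge (j : ℕ) n with h3 | h3
          · exact h3
          · exfalso
            have h4 : j = jn := by
              apply Fin.ext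
              show (j : ℕ) = n
              omega
            rw [h4] at hmem
            exact h2 ((hS jn N hN).2 hmem)
    obtain ⟨F, hF, hFs⟩ := key r le_rfl
    obtain ⟨g, hg, hgs⟩ := polyTime_of (α := List (CNF ℕ))
      (F := fun Φ => (F (Φ.map satCount)).bits)
      (NPC.Poly.natBits (hF.comp (poly_counts hyp)))
    refine ⟨g, hg, fun Φ hΦ => ?_⟩
    obtain ⟨j0, hj0⟩ := hcov (vec m (Φ.map satCount))
    obtain ⟨j, hj, hmem⟩ := hFs (Φ.map satCount) (by rw [List.length_map, hΦ]) ⟨j0, j0.2, hj0⟩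
    exact ⟨j, by rw [hgs, hj], hmem⟩

/-! ### The richest formula -/

/-- the unit vectors -/
def unitV (k : ℕ) : List (List ℕ) :=
  (List.range (max k 1)).map (fun j => (List.range k).map (fun i => if i = j then 1 else 0))

theorem unitV_getD {k j i : ℕ} (hj : j < k) (hi : i < k) :
    ((unitV k).getD j []).getD i 0 = if i = j then 1 else 0 := by
  unfold unitV
  rw [List.getD_eq_getElem?_getD (l := (List.range (max k 1)).map _), List.getElem?_map,
    List.getElem?_range (by omega)]
  simp only [Option.map_some, Option.getD_some]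
  rw [List.getD_eq_getElem?_getD, List.getElem?_map, List.getElem?_range hi]
  rfl

theorem poly_unitV : NPC.Poly (fun l : List Unit => unitV l.length) := by
  unfold unitV
  have h1 : UPoly (fun l : List Unit => l.length) := UPoly.length NPC.Poly.id
  have h2 : UPoly (fun l : List Unit => max l.length 1) :=
    UPoly.of_le (by fun_prop) (UPoly.add h1 (UPoly.const 1)) fun _ => by omega
  refine NPC.Poly.map (l := fun l : List Unit => List.range (max l.length 1))
    (F := fun l j => (List.range l.length).map (fun i => if i = j then 1 else 0)) h2.range ?_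
  refine NPC.Poly.map (l := fun p : List Unit × ℕ => List.range p.1.length)
    (F := fun p i => if i = p.2 then 1 else 0)
    (h1.range.comp (NPC.Poly.fst NPC.Poly.id)) ?_
  exact NPC.Poly.ite (by fun_prop) (NPC.Poly.const 1) (NPC.Poly.const 0)

theorem richest : ∃ q : Polynomial ℕ, (∀ f : List Bool → ℕ, SharpP f → FP f) ↔
    ∃ g : List Bool → List Bool, PolyTime g ∧ ∀ k ≥ 2, ∀ Φ : List (CNF ℕ), Φ.length = k →
      (bits Φ).length ≤ q.eval k → ∃ j < k, g (bits Φ) = j.bits ∧
        ∃ i < k, i ≠ j ∧ satCount (Φ.getD j []) ≤ satCount (Φ.getD i []) := by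
  obtain ⟨q, hq⟩ := shapes_hard (V := unitV) (m := fun k => k) poly_unitV (fun k h => by
      have := congrArg List.length h
      simp [unitV] at this) (fun k v hv => by
      unfold unitV at hv
      rw [List.mem_map] at hv
      obtain ⟨j, _, rfl⟩ := hv
      simp)
  refine ⟨q, fun hyp => ?_, fun ⟨g, hg, hsol⟩ => ?_⟩
  · have h1 : NPC.Poly (fun Φ : List (CNF ℕ) =>
        (if (Φ.map satCount).getD 0 0 ≤ (Φ.map satCount).getD 1 0 then 0 else 1 : ℕ)) := by
      have h2 := poly_counts hyp
      exact NPC.Poly.ite (NPC.Poly.decide_le (NPC.Poly.getD h2 (NPC.Poly.const 0)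
        (NPC.Poly.const 0)) (NPC.Poly.getD h2 (NPC.Poly.const 1) (NPC.Poly.const 0)))
        (NPC.Poly.const 0) (NPC.Poly.const 1)
    obtain ⟨g, hg, hgs⟩ := polyTime_of (α := List (CNF ℕ))
      (F := fun Φ => (if (Φ.map satCount).getD 0 0 ≤ (Φ.map satCount).getD 1 0
        then 0 else 1 : ℕ).bits) (NPC.Poly.natBits h1)
    refine ⟨g, hg, fun k hk Φ hΦ _ => ?_⟩
    have e : ∀ i < k, (Φ.map satCount).getD i 0 = satCount (Φ.getD i []) := by
      intro i hi
      rw [List.getD_eq_getElem?_getD, List.getElem?_map, List.getD_eq_getElem?_getD,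
        List.getElem?_eq_getElem (by omega)]
      rfl
    rw [hgs, e 0 (by omega), e 1 (by omega)]
    by_cases h3 : satCount (Φ.getD 0 []) ≤ satCount (Φ.getD 1 [])
    · exact ⟨0, by omega, by rw [if_pos h3], 1, by omega, by omega, h3⟩
    · exact ⟨1, by omega, by rw [if_neg h3], 0, by omega, by omega, by omega⟩
  · refine hq (drp g) (drp_poly hg) 2 fun k hk Φ hΦ hsz => ?_
    obtain ⟨j, hj, hgj, i, hi, hij, hle⟩ := hsol k hk Φ hΦ hsz
    refine ⟨j, by simp [unitV]; omega, by rw [drp_bits, hgj], fun hnear => ?_⟩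
    obtain ⟨a, b, ha, hab⟩ := hnear
    have e : ∀ i < k, (Φ.map satCount).getD i 0 = satCount (Φ.getD i []) := by
      intro i hi
      rw [List.getD_eq_getElem?_getD, List.getElem?_map, List.getD_eq_getElem?_getD,
        List.getElem?_eq_getElem (by omega)]
      rfl
    obtain ⟨h1, _⟩ := hab j (by rw [List.length_map]; omega)
    obtain ⟨h2, h3⟩ := hab i (by rw [List.length_map]; omega)
    rw [unitV_getD hj hj, e j hj, if_pos rfl, mul_one] at h1
    rw [unitV_getD hj hi, e i hi, if_neg hij, mul_zero, zero_add] at h2 h3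
    have h4 : 2 ≤ 2 ^ k := by
      calc 2 = 2 ^ 1 := by norm_num
        _ ≤ 2 ^ k := Nat.pow_le_pow_right (by norm_num) (by omega)
    have h5 : 2 * (satCount (Φ.getD i []) - b) ≤ a :=
      (Nat.mul_le_mul_right _ h4).trans h3
    omega

end Pool.Agent.Y597.Shp
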