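import Pool.Agent.Y597.Shp.Qp

/-!
# Searching with an algorithm that excludes one of `r` segments
-/

set_option autoImplicit false

namespace Pool.Agent.Y597.Shp

open Pool.Agent.NPC Pool.Agent.NPC.Cnt Pool.Agent.W901.NU

/-! ### The search -/

/-- add a candidate interval; if there are `r` of them, remove one -/
def push (ixf : List ℕ → ℕ) (r h : ℕ) (K : List ℕ) (q : ℕ) : List ℕ :=
  if r ≤ (K ++ [q]).length then
    ((K ++ [q]).eraseIdx (ixf ((K ++ [q]).tail.map (fun x => x * h)))).take (r - 1)
  else K ++ [q]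

def sweep (ixf : List ℕ → ℕ) (r h : ℕ) (D : List ℕ) : List ℕ := D.foldl (push ixf r h) []

def kids (K : List ℕ) : List ℕ := K.flatMap (fun a => [2 * a, 2 * a + 1])

def levs (ixf : List ℕ → ℕ) (r B : ℕ) (L : List ℕ) : List ℕ :=
  L.foldl (fun K l => sweep ixf r (2 ^ (B - (l + 1))) (kids K)) (sweep ixf r (2 ^ B) [0])

theorem push_sublist (ixf : List ℕ → ℕ) (r h : ℕ) (K : List ℕ) (q : ℕ) :
    (push ixf r h K q).Sublist (K ++ [q]) := by
  unfold push
  split_ifs
  · exact (List.take_sublist _ _).trans (List.eraseIdx_sublist _ _)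
  · exact List.Sublist.refl _

theorem push_length (ixf : List ℕ → ℕ) (r h : ℕ) (K : List ℕ) (q : ℕ) :
    (push ixf r h K q).length ≤ r - 1 := by
  unfold push
  split_ifs with hr
  · exact List.length_take_le _ _
  · omega

theorem foldl_push_sublist (ixf : List ℕ → ℕ) (r h : ℕ) : ∀ (D K : List ℕ),
    (D.foldl (push ixf r h) K).Sublist (K ++ D)
  | [], K => by simp
  | q :: D, K => by
    rw [List.foldl_cons]
    refine (foldl_push_sublist ixf r h D _).trans ?_
    have h1 := (push_sublist ixf r h K q).append_right D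
    simpa using h1

theorem sweep_sublist (ixf : List ℕ → ℕ) (r h : ℕ) (D : List ℕ) :
    (sweep ixf r h D).Sublist D := by
  have := foldl_push_sublist ixf r h D []
  simpa [sweep] using this

theorem foldl_push_length (ixf : List ℕ → ℕ) (r h : ℕ) : ∀ (D K : List ℕ), K.length ≤ r - 1 →
    (D.foldl (push ixf r h) K).length ≤ r - 1
  | [], K, hK => by simpa using hK
  | q :: D, K, _ => by
    rw [List.foldl_cons]
    exact foldl_push_length ixf r h D _ (push_length ixf r h K q)

theorem sweep_length (ixf : List ℕ → ℕ) (r h : ℕ) (D : List ℕ) :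
    (sweep ixf r h D).length ≤ r - 1 := foldl_push_length ixf r h D [] (by simp)

/-- the cuts to which the index function is applied -/
def Good (r B : ℕ) (c : List ℕ) : Prop := c.length + 1 = r ∧ ∀ x ∈ c, x ≤ 2 ^ B ∧ 1 ≤ x

/-- the index function excludes the segment of `u` -/
def Excl (ixf : List ℕ → ℕ) (r B u : ℕ) : Prop :=
  ∀ c, Good r B c → ixf c < r ∧ ∀ js, Seg c u js → js < r → ixf c ≠ js

theorem push_spec {ixf : List ℕ → ℕ} {r B u h : ℕ} (hr : 1 ≤ r) (hex : Excl ixf r B u)
    (hh : 1 ≤ h) {K : List ℕ} {q : ℕ} (hs : (K ++ [q]).Pairwise (· < ·))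
    (hK : K.length ≤ r - 1) (hb : ∀ x ∈ K ++ [q], (x + 1) * h ≤ 2 ^ B)
    (hp : u / h ∈ K ++ [q]) : u / h ∈ push ixf r h K q := by
  unfold push
  split_ifs with h1
  · set K' := K ++ [q] with hK'
    have hlen : K'.length = r := by
      rw [hK', List.length_append, List.length_singleton] at h1 ⊢
      omega
    have htl : (K'.tail.map (fun x => x * h)).length + 1 = r := by
      rw [List.length_map, List.length_tail]
      omega
    have hgt : ∀ i (hi : i + 1 < K'.length), 1 ≤ K'[i + 1] := by
      intro i hi
      have := List.pairwise_iff_getElem.1 hs 0 (i + 1) (by omega) hi (by omega)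
      omega
    have hgood : Good r B (K'.tail.map (fun x => x * h)) := by
      refine ⟨htl, fun x hx => ?_⟩
      rw [List.mem_map] at hx
      obtain ⟨y, hy, rfl⟩ := hx
      obtain ⟨i, hi, rfl⟩ := List.getElem_of_mem hy
      rw [List.length_tail] at hi
      rw [List.getElem_tail]
      have h2 := hb K'[i + 1] (List.getElem_mem _)
      have h3 := hgt i (by omega)
      constructor
      · nlinarith
      · nlinarith
    obtain ⟨e1, e2⟩ := hex _ hgood
    obtain ⟨js, hjs, hjp⟩ := List.getElem_of_mem hp
    have hseg : Seg (K'.tail.map (fun x => x * h)) u js := by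
      intro x hx
      rw [List.mem_zipIdx_iff_getElem?, List.getElem?_map, Option.map_eq_some_iff] at hx
      obtain ⟨y, hy, hyx⟩ := hx
      rw [List.getElem?_eq_some_iff] at hy
      obtain ⟨hi, hy⟩ := hy
      rw [List.length_tail] at hi
      rw [List.getElem_tail] at hy
      have hdiv := Nat.div_mul_le_self u h
      have hdiv2 := Nat.lt_div_mul_add (a := u) (b := h) (by omega)
      constructor
      · intro hlt
        have h4 : K'[x.2 + 1] ≤ K'[js] := by
          rcases Nat.lt_or_ge (x.2 + 1) js with h5 | h5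
          · exact (List.pairwise_iff_getElem.1 hs _ _ (by omega) hjs h5).le
          · have h6 : x.2 + 1 = js := by omega
            simp only [h6]
            exact le_rfl
        rw [hjp] at h4
        rw [← hyx, ← hy]
        exact (Nat.mul_le_mul_right h h4).trans hdiv
      · intro hge
        have h4 : K'[js] < K'[x.2 + 1] :=
          List.pairwise_iff_getElem.1 hs _ _ hjs (by omega) (by omega)
        rw [hjp] at h4
        rw [← hyx, ← hy]
        have h5 : (u / h + 1) * h ≤ K'[x.2 + 1] * h := Nat.mul_le_mul_right h h4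
        rw [Nat.add_mul, one_mul] at h5
        omega
    have h7 := e2 js hseg (by omega)
    have h8 : (K'.eraseIdx (ixf (K'.tail.map (fun x => x * h)))).length = r - 1 := by
      rw [List.length_eraseIdx_of_lt (by omega)]
      omega
    rw [List.take_of_length_le (by omega)]
    rw [List.mem_eraseIdx_iff_getElem]
    exact ⟨js, hjs, fun h9 => h7 h9.symm, hjp⟩
  · exact hp

theorem foldl_push_spec {ixf : List ℕ → ℕ} {r B u h : ℕ} (hr : 1 ≤ r) (hex : Excl ixf r B u)
    (hh : 1 ≤ h) : ∀ (D K : List ℕ), (K ++ D).Pairwise (· < ·) → K.length ≤ r - 1 →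
    (∀ x ∈ K ++ D, (x + 1) * h ≤ 2 ^ B) → u / h ∈ K ++ D →
    u / h ∈ D.foldl (push ixf r h) K
  | [], K, _, _, _, hp => by simpa using hp
  | q :: D, K, hs, hK, hb, hp => by
    rw [List.foldl_cons]
    have hs' : ((K ++ [q]) ++ D).Pairwise (· < ·) := by simpa using hs
    have hsub := (push_sublist ixf r h K q)
    have hsub' := hsub.append_right D
    refine foldl_push_spec hr hex hh D _ (hs'.sublist hsub') (push_length ixf r h K q)
      (fun x hx => hb x (by simpa using hsub'.subset hx)) ?_
    rw [List.mem_append]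
    by_cases hD : u / h ∈ D
    · exact Or.inr hD
    · left
      refine push_spec hr hex hh (hs'.sublist (List.sublist_append_left _ _)) hK
        (fun x hx => hb x (by
          rw [List.mem_append, List.mem_singleton] at hx
          rw [List.mem_append, List.mem_cons]
          tauto)) ?_
      rw [List.mem_append, List.mem_cons] at hp
      rw [List.mem_append, List.mem_singleton]
      tauto

theorem sweep_spec {ixf : List ℕ → ℕ} {r B u h : ℕ} (hr : 1 ≤ r) (hex : Excl ixf r B u)
    (hh : 1 ≤ h) {D : List ℕ} (hs : D.Pairwise (· < ·)) (hb : ∀ x ∈ D, (x + 1) * h ≤ 2 ^ B)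
    (hp : u / h ∈ D) : u / h ∈ sweep ixf r h D :=
  foldl_push_spec hr hex hh D [] (by simpa using hs) (by simp) (by simpa using hb)
    (by simpa using hp)

theorem kids_pairwise : ∀ {K : List ℕ}, K.Pairwise (· < ·) → (kids K).Pairwise (· < ·)
  | [], _ => by simp [kids]
  | a :: K, h => by
    rw [List.pairwise_cons] at h
    have ih := kids_pairwise h.2
    have e : kids (a :: K) = 2 * a :: (2 * a + 1) :: kids K := rfl
    rw [e, List.pairwise_cons, List.pairwise_cons]
    have hk : ∀ x ∈ kids K, 2 * a + 1 < x := by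
      intro x hx
      unfold kids at hx
      rw [List.mem_flatMap] at hx
      obtain ⟨b, hb, hx⟩ := hx
      have := h.1 b hb
      simp only [List.mem_cons, List.not_mem_nil, or_false] at hx
      omega
    refine ⟨fun x hx => ?_, fun x hx => hk x hx, ih⟩
    rw [List.mem_cons] at hx
    rcases hx with rfl | hx
    · omega
    · have := hk x hx
      omega

theorem mem_kids {K : List ℕ} {x : ℕ} : x ∈ kids K ↔ x / 2 ∈ K := by
  unfold kids
  rw [List.mem_flatMap]
  constructor
  · rintro ⟨a, ha, hx⟩
    simp only [List.mem_cons, List.not_mem_nil, or_false] at hx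
    have : x / 2 = a := by omega
    rwa [this]
  · intro h
    refine ⟨x / 2, h, ?_⟩
    simp only [List.mem_cons, List.not_mem_nil, or_false]
    omega

theorem levs_bound (ixf : List ℕ → ℕ) (r B : ℕ) : ∀ n : ℕ,
    (levs ixf r B (List.range n)).length ≤ r - 1 ∧
      ∀ x ∈ levs ixf r B (List.range n), x < 2 ^ n
  | 0 => by
    refine ⟨sweep_length _ _ _ _, fun x hx => ?_⟩
    have := (sweep_sublist ixf r (2 ^ B) [0]).subset hx
    simp at this
    simp [this]
  | n + 1 => by
    obtain ⟨ih1, ih2⟩ := levs_bound ixf r B n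
    have e : levs ixf r B (List.range (n + 1)) =
        sweep ixf r (2 ^ (B - (n + 1))) (kids (levs ixf r B (List.range n))) := by
      unfold levs
      rw [List.range_succ, List.foldl_append]
      rfl
    rw [e]
    refine ⟨sweep_length _ _ _ _, fun x hx => ?_⟩
    have h1 := (sweep_sublist _ _ _ _).subset hx
    rw [mem_kids] at h1
    have := ih2 _ h1
    rw [pow_succ]
    omega

theorem levs_spec {ixf : List ℕ → ℕ} {r B u : ℕ} (hr : 1 ≤ r) (hex : Excl ixf r B u)
    (hu : u < 2 ^ B) : ∀ n ≤ B, (levs ixf r B (List.range n)).Pairwise (· < ·) ∧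
      u / 2 ^ (B - n) ∈ levs ixf r B (List.range n)
  | 0, _ => by
    refine ⟨(List.pairwise_singleton _ _).sublist (sweep_sublist ixf r (2 ^ B) [0]), ?_⟩
    refine sweep_spec hr hex (Nat.one_le_two_pow) (List.pairwise_singleton _ _) ?_ ?_
    · simp
    · rw [Nat.div_eq_of_lt hu]
      simp
  | n + 1, hn => by
    obtain ⟨ih1, ih2⟩ := levs_spec hr hex hu n (by omega)
    have hbd := (levs_bound ixf r B n).2
    have e : levs ixf r B (List.range (n + 1)) =
        sweep ixf r (2 ^ (B - (n + 1))) (kids (levs ixf r B (List.range n))) := by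
      unfold levs
      rw [List.range_succ, List.foldl_append]
      rfl
    rw [e]
    refine ⟨(kids_pairwise ih1).sublist (sweep_sublist _ _ _ _), ?_⟩
    refine sweep_spec hr hex Nat.one_le_two_pow (kids_pairwise ih1) (fun x hx => ?_) ?_
    · rw [mem_kids] at hx
      have h1 := hbd _ hx
      have h2 : x + 1 ≤ 2 ^ (n + 1) := by rw [pow_succ]; omega
      calc (x + 1) * 2 ^ (B - (n + 1)) ≤ 2 ^ (n + 1) * 2 ^ (B - (n + 1)) :=
            Nat.mul_le_mul_right _ h2
        _ = 2 ^ B := by rw [← pow_add]; congr 1; omega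
    · rw [mem_kids, Nat.div_div_eq_div_mul, ← pow_succ]
      have e2 : B - (n + 1) + 1 = B - n := by omega
      rw [e2]
      exact ih2

/-- **The search**: the last list contains the hidden number. -/
theorem levs_mem {ixf : List ℕ → ℕ} {r B u : ℕ} (hr : 1 ≤ r) (hex : Excl ixf r B u)
    (hu : u < 2 ^ B) : u ∈ levs ixf r B (List.range B) := by
  have h := (levs_spec hr hex hu B le_rfl).2
  simpa using h

end Pool.Agent.Y597.Shp
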