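import Pool.Agent.Y597.Shp.Main

/-!
# The theorem
-/

set_option autoImplicit false

namespace Pool.Agent.Y597.Shp

open Pool.Agent.NPC Pool.Agent.NPC.Cnt Pool.Agent.W901.NU

/-- the vector of the numbers of certificates with given prefixes, as a number -/
def Uf (V0 : List Bool → List Bool) (p0 : Polynomial ℕ) (b : List Bool × List (List Bool)) : ℕ :=
  encL (p0.eval b.1.length + 1) (b.2.map (fun u => cntP V0 p0 (b.1, u)))

theorem upoly_L (p0 : Polynomial ℕ) : UPoly (fun x : List Bool => p0.eval x.length) :=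
  (UPoly.length NPC.Poly.id).eval p0

theorem upoly_W (p0 : Polynomial ℕ) : UPoly (fun x : List Bool => p0.eval x.length + 1) :=
  UPoly.add (upoly_L p0) (UPoly.const 1)

theorem countP_Uf {V0 : List Bool → List Bool} (hV0 : PolyTime V0) (p0 : Polynomial ℕ) :
    CountP (Uf V0 p0) := by
  have h1 : CountP (fun p : (List Bool × List (List Bool)) × (List Bool × ℕ) =>
      cntP V0 p0 (p.1.1, p.2.1) *
        2 ^ ((p0.eval p.1.1.length + 1) * min p.2.2 p.1.2.length)) := by
    refine CountP.mul ((cntP_countP hV0 p0).comp (by fun_prop)) (CountP.ofPoly ?_)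
    have e1 : UPoly (fun p : (List Bool × List (List Bool)) × (List Bool × ℕ) =>
        p0.eval p.1.1.length + 1) := (upoly_W p0).comp (NPC.Poly.fst (NPC.Poly.fst NPC.Poly.id))
    have e2 : UPoly (fun p : (List Bool × List (List Bool)) × (List Bool × ℕ) =>
        p.1.2.length) := UPoly.length (by fun_prop)
    have e3 : UPoly (fun p : (List Bool × List (List Bool)) × (List Bool × ℕ) =>
        min p.2.2 p.1.2.length) :=
      UPoly.of_le (NPC.Poly.min (by fun_prop) e2.toPoly) e2 fun _ => min_le_right _ _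
    exact two_pow_poly (UPoly.mul e1 e3)
  have h2 := sumL (l := fun b : List Bool × List (List Bool) => b.2.zipIdx) (by fun_prop) h1
  refine h2.congr fun b => ?_
  unfold Uf
  have h3 := encL_zipIdx (p0.eval b.1.length + 1) (b.2.map (fun u => cntP V0 p0 (b.1, u))) 0
  rw [mul_zero, pow_zero, one_mul] at h3
  rw [← h3, List.zipIdx_map, List.map_map]
  congr 1
  refine List.map_congr_left fun y hy => ?_
  rw [List.mem_zipIdx_iff_getElem?, List.getElem?_eq_some_iff] at hy
  obtain ⟨hy, _⟩ := hy
  rw [min_eq_left hy.le]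
  rfl

theorem Uf_lt (V0 : List Bool → List Bool) (p0 : Polynomial ℕ)
    (b : List Bool × List (List Bool)) :
    Uf V0 p0 b < 2 ^ ((p0.eval b.1.length + 1) * b.2.length) := by
  have h := encL_lt (p0.eval b.1.length + 1) (b.2.map (fun u => cntP V0 p0 (b.1, u))) (by
    intro v hv
    rw [List.mem_map] at hv
    obtain ⟨u, _, rfl⟩ := hv
    exact cntP_lt V0 p0 b.1 u)
  rwa [List.length_map] at h

theorem eval_le (p : Polynomial ℕ) {m n : ℕ} (h : m ≤ n) : p.eval m ≤ p.eval n := eval_mono p h

theorem sz_unary (k : ℕ) : sz (List.replicate k ()) = 2 * k + 1 := by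
  induction k with
  | zero => rfl
  | succ k ih =>
    rw [List.replicate_succ, sz_list_cons, ih]
    have : sz () = 1 := rfl
    omega

/-- The algorithm `g` excludes a shape for the formulas `Φ`. -/
def Excludes (V : ℕ → List (List ℕ)) (g : List Bool → List Bool) (k : ℕ) (Φ : List (CNF ℕ)) :
    Prop :=
  ∃ j < (V k).length, g (bits (List.replicate k (), Φ)) = j.bits ∧
    ¬ Near k ((V k).getD j []) (Φ.map satCount)

theorem core {V : ℕ → List (List ℕ)} {m : ℕ → ℕ} (hV : NPC.Poly (fun l : List Unit => V l.length))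
    (hne : ∀ k, V k ≠ []) (hlen : ∀ k, ∀ v ∈ V k, v.length = m k) {V0 : List Bool → List Bool}
    (hV0 : PolyTime V0) (p0 : Polynomial ℕ) :
    ∃ q : Polynomial ℕ, ∀ g, PolyTime g → ∀ k0, (∀ k ≥ k0, ∀ Φ : List (CNF ℕ), Φ.length = m k →
      (bits Φ).length ≤ q.eval k → Excludes V g k Φ) →
      NPC.Poly (fun x : List Bool => cntP V0 p0 (x, [])) := by
  obtain ⟨F, hF, hFs⟩ := exists_form (countP_Uf hV0 p0)
  have hq1 : NPC.Poly (fun a : (List Bool × List (List Bool)) × List Unit × List ℕ =>
      qy F a.1 ((p0.eval a.1.1.length + 1) * a.1.2.length) a.2.1.length (V a.2.1.length)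
        a.2.2) := by
    refine poly_qy hF (by fun_prop) ?_ (UPoly.length (by fun_prop)) (hV.comp (by fun_prop))
      (by fun_prop)
    exact UPoly.mul ((upoly_W p0).comp (by fun_prop)) (UPoly.length (by fun_prop))
  obtain ⟨pQ, hpQ⟩ := hq1.sz_le
  obtain ⟨pV, hpV⟩ := hV.sz_le
  have hR : ∀ k, (V k).length ≤ pV.eval (2 * k + 1) := by
    intro k
    have h1 := hpV (List.replicate k ())
    rw [sz_unary, List.length_replicate] at h1
    exact (length_lt_sz (V k)).le.trans h1
  -- the polynomials
  obtain ⟨Rp, hRp⟩ : ∃ Rp : Polynomial ℕ, ∀ k, Rp.eval k = pV.eval (2 * k + 1) :=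
    ⟨pV.comp (Polynomial.C 2 * Polynomial.X + Polynomial.C 1), fun k => by
      simp [Polynomial.eval_comp]⟩
  obtain ⟨Np, hNp⟩ : ∃ Np : Polynomial ℕ, ∀ k, Np.eval k = 2 * (Rp.eval k * Rp.eval k + 1) :=
    ⟨Polynomial.C 2 * (Rp * Rp + Polynomial.C 1), fun k => by simp⟩
  obtain ⟨Bp, hBp⟩ : ∃ Bp : Polynomial ℕ, ∀ k, Bp.eval k = (p0.eval k + 1) * Np.eval k :=
    ⟨(p0 + Polynomial.C 1) * Np, fun k => by simp⟩
  obtain ⟨Tp, hTp⟩ : ∃ Tp : Polynomial ℕ, ∀ k, Tp.eval k =
      (k + (Np.eval k * (4 * p0.eval k + 2) + 1) + 1) +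
        ((2 * k + 1) + (Rp.eval k * (4 * (Bp.eval k + 1) + 2) + 1) + 1) + 1 :=
    ⟨(Polynomial.X + (Np * (Polynomial.C 4 * p0 + Polynomial.C 2) + Polynomial.C 1) +
      Polynomial.C 1) + ((Polynomial.C 2 * Polynomial.X + Polynomial.C 1) +
      (Rp * (Polynomial.C 4 * (Bp + Polynomial.C 1) + Polynomial.C 2) + Polynomial.C 1) +
      Polynomial.C 1) + Polynomial.C 1, fun k => by simp⟩
  refine ⟨pQ.comp Tp, fun g hg k0 hyp => ?_⟩
  -- the parameters of the algorithm
  set kx : List Bool → ℕ := fun x => sz x + k0 with hkx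
  have hkU : UPoly kx := UPoly.add upoly_sz (UPoly.const k0)
  have hVk : NPC.Poly (fun x : List Bool => V (kx x)) :=
    (hV.comp (f := fun x : List Bool => List.replicate (kx x) ()) hkU).congr fun x => by
      rw [List.length_replicate]
  set ixf : List Bool × List (List Bool) → List ℕ → ℕ := fun b c =>
    ans g (kx b.1) (qy F b ((p0.eval b.1.length + 1) * b.2.length) (kx b.1) (V (kx b.1)) c)
    with hixf
  have hB : UPoly (fun b : List Bool × List (List Bool) =>
      (p0.eval b.1.length + 1) * b.2.length) :=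
    UPoly.mul ((upoly_W p0).comp (by fun_prop)) (UPoly.length (by fun_prop))
  have hRU : UPoly (fun x : List Bool => (V (kx x)).length) := UPoly.length hVk
  have hix : NPC.Poly (fun p : (List Bool × List (List Bool)) × List ℕ => ixf p.1 p.2) := by
    have f1 : NPC.Poly (fun p : (List Bool × List (List Bool)) × List ℕ => p.1.1) := by fun_prop
    have f2 : NPC.Poly (fun p : (List Bool × List (List Bool)) × List ℕ => p.1) := by fun_prop
    exact poly_ans hg (hkU.comp f1) (poly_qy hF f2 (hB.comp f2) (hkU.comp f1) (hVk.comp f1)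
      (by fun_prop))
  set cd : List Bool → List (List Bool) → List ℕ := fun x Q =>
    levs (ixf (x, Q)) (V (kx x)).length ((p0.eval x.length + 1) * Q.length)
      (List.range ((p0.eval x.length + 1) * Q.length)) with hcd
  have hcdP : NPC.Poly (fun p : List Bool × List (List Bool) => cd p.1 p.2) :=
    poly_levs hix (hRU.comp (NPC.Poly.fst NPC.Poly.id)) hB
  have hc1 : ∀ x Q, (cd x Q).length ≤ (V (kx x)).length := fun x Q =>
    ((levs_bound _ _ _ _).1).trans (Nat.sub_le _ _)
  have hc2 : ∀ x, ∀ U ∈ cd x [[]], U < 2 ^ (p0.eval x.length + 1) := by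
    intro x U hU
    have h1 := (levs_bound _ _ _ _).2 U hU
    simpa using h1
  have hrun := poly_run (upoly_W p0) (upoly_L p0) hRU hcdP hc1 hc2
  -- the output
  have hleaf : NPC.Poly (fun p : List Bool × List Bool =>
      (decide (V0 (pairBits p.1 p.2) = [true])).toNat) :=
    polyToNat (NPC.Poly.decide_eq ((PIso.poly_iff.2 hV0).comp
      (H622R2.poly_pairBits (by fun_prop) (by fun_prop))) (NPC.Poly.const _))
  have hout : NPC.Poly (fun x : List Bool =>
      outp (fun u => (decide (V0 (pairBits x u) = [true])).toNat)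
        (run (p0.eval x.length + 1) (p0.eval x.length) (cd x))) := by
    unfold outp
    have h1 : NPC.Poly (fun x : List Bool =>
        ((run (p0.eval x.length + 1) (p0.eval x.length) (cd x)).1.map
          (fun u => (decide (V0 (pairBits x u) = [true])).toNat))) :=
      NPC.Poly.map (F := fun x u => (decide (V0 (pairBits x u) = [true])).toNat)
        (NPC.Poly.fst hrun) hleaf
    have h2 := NPC.Poly.filter (l := fun x : List Bool =>
        (run (p0.eval x.length + 1) (p0.eval x.length) (cd x)).2)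
      (p := fun x h => decide (h.2 =
        (run (p0.eval x.length + 1) (p0.eval x.length) (cd x)).1.map
          (fun u => (decide (V0 (pairBits x u) = [true])).toNat)))
      (NPC.Poly.snd hrun) (NPC.Poly.decide_eq (by fun_prop)
        (h1.comp (NPC.Poly.fst NPC.Poly.id)))
    exact NPC.Poly.optGetD (NPC.Poly.head? (NPC.Poly.map (F := fun _ h => h.1) h2 (by fun_prop)))
      (NPC.Poly.const 0)
  refine hout.congr fun x => ?_
  -- correctness
  have hk0 : kx x ≥ k0 := Nat.le_add_left _ _
  have hr1 : 1 ≤ (V (kx x)).length := List.length_pos_iff.2 (hne _)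
  have hm : ((V (kx x)).headD []).length = m (kx x) := by
    obtain ⟨v, t, hv⟩ := List.exists_cons_of_ne_nil (hne (kx x))
    rw [hv]
    exact hlen _ v (by rw [hv]; simp)
  have hexcl : ∀ Q, Small (V (kx x)).length (p0.eval x.length) Q →
      Excl (ixf (x, Q)) (V (kx x)).length ((p0.eval x.length + 1) * Q.length)
        (Uf V0 p0 (x, Q)) := by
    intro Q hQ c hc
    have hxk : x.length ≤ kx x := by
      have := length_lt_sz x
      rw [hkx]
      show x.length ≤ sz x + k0
      omega
    have hpk := eval_le p0 hxk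
    have hRk : (V (kx x)).length ≤ Rp.eval (kx x) := by
      rw [hRp]
      exact hR _
    have hQk : Q.length ≤ Np.eval (kx x) := by
      rw [hNp]
      refine hQ.1.trans ?_
      have := Nat.mul_le_mul hRk hRk
      omega
    have hBk : (p0.eval x.length + 1) * Q.length ≤ Bp.eval (kx x) := by
      rw [hBp]
      exact Nat.mul_le_mul (by omega) hQk
    have hsz : (bits (qy F (x, Q) ((p0.eval x.length + 1) * Q.length) (kx x) (V (kx x))
        c)).length ≤ (pQ.comp Tp).eval (kx x) := by
      have h1 := hpQ ((x, Q), List.replicate (kx x) (), c)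
      simp only [List.length_replicate] at h1
      rw [bits_length, Polynomial.eval_comp]
      refine h1.trans (eval_le pQ ?_)
      have e1 : sz ((x, Q), List.replicate (kx x) (), c) =
          (sz x + sz Q + 1) + (sz (List.replicate (kx x) ()) + sz c + 1) + 1 := by
        rw [sz_pair, sz_pair, sz_pair]
      have e2 := sz_prefixes (i := p0.eval (kx x)) hQk (fun q hq => (hQ.2 q hq).trans hpk)
      have e3 : sz c ≤ Rp.eval (kx x) * (4 * (Bp.eval (kx x) + 1) + 2) + 1 := by
        refine sz_list_bound (by have := hc.1; omega) fun y hy => ?_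
        have h2 := (hc.2 y hy).1
        have h3 : 2 ^ ((p0.eval x.length + 1) * Q.length) ≤ 2 ^ Bp.eval (kx x) :=
          Nat.pow_le_pow_right (by norm_num) hBk
        rw [pow_succ]
        have h4 : 0 < 2 ^ Bp.eval (kx x) := by positivity
        omega
      rw [e1, sz_unary, hTp]
      have e4 : sz x ≤ kx x := Nat.le_add_right _ _
      omega
    have hΦ : (qy F (x, Q) ((p0.eval x.length + 1) * Q.length) (kx x) (V (kx x)) c).length =
        m (kx x) := by
      unfold qy
      rw [List.length_map, List.length_range, hm]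
    obtain ⟨j, hj, hgj, hnear⟩ := hyp (kx x) hk0 _ hΦ hsz
    have hans : ixf (x, Q) c = j := by
      show valB (g _) = j
      rw [hgj, valB_bits]
    rw [hans]
    refine ⟨hj, fun js hseg hjs hjj => ?_⟩
    subst hjj
    apply hnear
    have h5 := near_G0 (k := kx x) (V := V (kx x)) (m := ((V (kx x)).headD []).length)
      (Uf_lt V0 p0 (x, Q)) hc.2 hc.1 hseg hj (tot (V (kx x))) (fun i _ => le_tot i _)
    have h6 : (qy F (x, Q) ((p0.eval x.length + 1) * Q.length) (kx x) (V (kx x)) c).map satCount =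
        (List.range ((V (kx x)).headD []).length).map (fun i =>
          G0 (Uf V0 p0 (x, Q)) ((p0.eval x.length + 1) * Q.length) (kx x) c
            ((V (kx x)).map (fun v => v.getD i 0)) (tot (V (kx x)))) := by
      unfold qy
      rw [List.map_map]
      refine List.map_congr_left fun i _ => ?_
      simp only [Function.comp]
      rw [hFs, List.length_replicate, List.length_replicate]
    rw [h6]
    exact h5
  have hinv := run_inv (R := (V (kx x)).length) (W := p0.eval x.length + 1)
    (L := p0.eval x.length) (cd := cd x) (f := fun u => cntP V0 p0 (x, u)) (hc1 x) (hc2 x)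
    (fun p => cntP_lt V0 p0 x p) (fun p hp => cntP_step V0 p0 x p hp)
    (fun Q hQ => levs_mem hr1 (hexcl Q hQ) (Uf_lt V0 p0 (x, Q))) (p0.eval x.length) le_rfl
  exact outp_eq hinv fun p hp => (cntP_leaf V0 p0 x p hp).symm

/-- **Excluding one shape of a vector of counts is as hard as counting.** -/
theorem shapes_hard {V : ℕ → List (List ℕ)} {m : ℕ → ℕ}
    (hV : NPC.Poly (fun l : List Unit => V l.length))
    (hne : ∀ k, V k ≠ []) (hlen : ∀ k, ∀ v ∈ V k, v.length = m k) :
    ∃ q : Polynomial ℕ, ∀ g, PolyTime g → ∀ k0, (∀ k ≥ k0, ∀ Φ : List (CNF ℕ), Φ.length = m k →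
      (bits Φ).length ≤ q.eval k → Excludes V g k Φ) → ∀ f, SharpP f → FP f := by
  obtain ⟨V0, p0, hV0, h0⟩ := (countP_satCount).sharpP
  obtain ⟨q, hq⟩ := core hV hne hlen hV0 p0
  refine ⟨q, fun g hg k0 hyp f hf => ?_⟩
  have h1 := hq g hg k0 hyp
  have h2 : NPC.Poly (fun φ : CNF ℕ => satCount φ) := by
    refine (h1.comp (poly_bits (α := CNF ℕ))).congr fun φ => ?_
    have h3 := h0 (bits φ)
    rw [strFn_bits] at h3
    rw [h3]
    unfold cntP
    simp only [List.length_nil, Nat.sub_zero, List.nil_append]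
    rw [bsum_eq_card]
    refine Nat.card_congr (Equiv.subtypeEquivRight fun w => ?_)
    rw [decide_eq_true_eq]
  obtain ⟨V1, p1, hV1, hf1⟩ := hf
  obtain ⟨G, hG, hGf⟩ := parsimonious hV1 p1
  have hG' : NPC.Poly G := PC.comp hG pc_raw
  have h4 : NPC.Poly f := (h2.comp hG').congr fun x => by rw [hGf x, hf1 x]
  exact PIso.poly_iff.1 (NPC.Poly.natBits h4)

end Pool.Agent.Y597.Shp
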